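import Pool.Agent.MP_1b49f3_co.Defs

set_option autoImplicit false

/-!
# Upper bound: a super edge-magic graph of girth at least four has at most `2 p - 5` edges
-/

namespace Pool.Agent.MP_1b49f3_co

/-- No labelling of a triangle-free graph realises all sums `3, ..., 2 p - 2`. -/
theorem upper_core (p : ℕ) (hp : 4 ≤ p) (G : SimpleGraph (Fin p))
    (tri : ∀ u v w : Fin p, G.Adj u v → G.Adj u w → G.Adj v w → False)
    (a : Fin p → ℕ) (inj : Function.Injective a) (im : ∀ v, 1 ≤ a v ∧ a v ≤ p)
    (hs : ∀ s, 3 ≤ s → s + 2 ≤ 2 * p → ∃ u v, G.Adj u v ∧ a u + a v = s) : False := by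
  obtain ⟨v1, hv1⟩ : ∃ v, a v = 1 := by
    obtain ⟨u, v, _, h⟩ := hs 3 (le_refl _) (by omega)
    have := im u
    have := im v
    rcases Nat.lt_or_ge (a u) 2 with h1 | h1
    · exact ⟨u, by omega⟩
    · exact ⟨v, by omega⟩
  have key : ∀ i, 2 ≤ i → i ≤ p → ∀ w, a w = i → G.Adj v1 w := by
    intro i
    induction i using Nat.strong_induction_on with
    | _ i ih =>
      intro h2 hip w hw
      obtain ⟨u, v, huv, h⟩ := hs (i + 1) (by omega) (by omega)
      have hu := im u
      have hv := im v
      rcases Nat.lt_or_ge (a u) 2 with h1 | h1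
      · have e1 : u = v1 := inj (by omega)
        have e2 : v = w := inj (by omega)
        rw [← e1, ← e2]
        exact huv
      · rcases Nat.lt_or_ge (a v) 2 with h3 | h3
        · have e1 : v = v1 := inj (by omega)
          have e2 : u = w := inj (by omega)
          rw [← e1, ← e2]
          exact huv.symm
        · exact (tri v1 u v (ih (a u) (by omega) h1 (by omega) u rfl)
            (ih (a v) (by omega) h3 (by omega) v rfl) huv).elim
  obtain ⟨u, v, huv, h⟩ := hs (p + 2) (by omega) (by omega)
  have hu := im u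
  have hv := im v
  exact tri v1 u v (key (a u) (by omega) (by omega) u rfl)
    (key (a v) (by omega) (by omega) v rfl) huv

/-- A graph whose girth is at least four has no triangle. -/
theorem no_triangle_of_girth {V : Type} (G : SimpleGraph V) (hg : 4 ≤ G.girth)
    (u v w : V) (huv : G.Adj u v) (huw : G.Adj u w) (hvw : G.Adj v w) : False := by
  have hc : (SimpleGraph.Walk.cons huv (SimpleGraph.Walk.cons hvw
      (SimpleGraph.Walk.cons huw.symm SimpleGraph.Walk.nil))).IsCycle := by
    have h1 := huv.ne
    have h2 := huw.ne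
    have h3 := hvw.ne
    rw [SimpleGraph.Walk.isCycle_def]
    refine ⟨?_, ?_, ?_⟩
    · simp [SimpleGraph.Walk.isTrail_def, h1, h2, h3, h1.symm, h2.symm]
    · simp
    · simp [h3, h1.symm, h2.symm]
  have := SimpleGraph.girth_le_length hc
  simp at this
  omega

theorem upper (p : ℕ) (hp : 4 ≤ p) (G : SimpleGraph (Fin p)) (h : SuperEdgeMagic G)
    (hg : 4 ≤ G.girth) : Nat.card G.edgeSet + 5 ≤ 2 * p := by
  by_contra hcon
  obtain ⟨f, hbij, ⟨k, hk⟩, himg⟩ := h
  set q := Nat.card G.edgeSet with hq
  have hV : Nat.card (Fin p) = p := by simp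
  rw [hV] at hbij himg
  have inj : Function.Injective (fun v : Fin p => f (Sum.inl v)) := by
    intro u v huv
    have := hbij.injOn (Set.mem_univ _) (Set.mem_univ _) huv
    exact Sum.inl_injective this
  have im : ∀ v : Fin p, 1 ≤ f (Sum.inl v) ∧ f (Sum.inl v) ≤ p := by
    intro v
    have : f (Sum.inl v) ∈ Set.Icc 1 p := by
      rw [← himg]
      exact ⟨_, ⟨v, rfl⟩, rfl⟩
    exact this
  have tri := no_triangle_of_girth G hg
  have edge : ∀ x, p + 1 ≤ x → x ≤ p + q →
      ∃ u v, G.Adj u v ∧ f (Sum.inl u) + f (Sum.inl v) + x = k := by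
    intro x h1 h2
    have hx : x ∈ f '' Set.univ := by
      rw [hbij.image_eq]
      exact ⟨by omega, h2⟩
    obtain ⟨y, _, hy⟩ := hx
    rcases y with v | e
    · have := im v
      omega
    · obtain ⟨e, he⟩ := e
      induction e using Sym2.ind with
      | _ u v =>
        have hadj : G.Adj u v := he
        refine ⟨u, v, hadj, ?_⟩
        have := hk u v hadj
        have e2 : f (Sum.inr ⟨s(u, v), hadj⟩) = x := hy
        rw [e2] at this
        omega
  have bnd : ∀ u v, G.Adj u v → 3 ≤ f (Sum.inl u) + f (Sum.inl v) ∧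
      f (Sum.inl u) + f (Sum.inl v) + 1 ≤ 2 * p := by
    intro u v huv
    have hne : f (Sum.inl u) ≠ f (Sum.inl v) := fun hh => huv.ne (inj hh)
    have := im u
    have := im v
    omega
  obtain ⟨u1, v1, a1, e1⟩ := edge (p + 1) (le_refl _) (by omega)
  obtain ⟨u2, v2, a2, e2⟩ := edge (p + q) (by omega) (le_refl _)
  have b1 := bnd u1 v1 a1
  have b2 := bnd u2 v2 a2
  have hkk : k = 3 * p ∨ k + 1 = 3 * p := by omega
  rcases hkk with hkk | hkk
  · refine upper_core p hp G (fun u v w h1 h2 h3 => tri u v w h1 h2 h3)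
      (fun v => p + 1 - f (Sum.inl v)) ?_ ?_ ?_
    · intro u v huv
      have h1 := im u
      have h2 := im v
      apply inj
      simp only at huv ⊢
      omega
    · intro v
      have := im v
      omega
    · intro s h3 hs
      obtain ⟨u, v, hadj, huv⟩ := edge (p + s - 2) (by omega) (by omega)
      refine ⟨u, v, hadj, ?_⟩
      have := im u
      have := im v
      omega
  · refine upper_core p hp G (fun u v w h1 h2 h3 => tri u v w h1 h2 h3)
      (fun v => f (Sum.inl v)) inj im ?_
    intro s h3 hs
    obtain ⟨u, v, hadj, huv⟩ := edge (k - s) (by omega) (by omega)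
    exact ⟨u, v, hadj, by omega⟩

end Pool.Agent.MP_1b49f3_co
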