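import Mathlib

set_option autoImplicit false

/-!
# Super edge-magic graphs of given girth: definitions and the interface between the modules

Vertices of the labelled graph are the integers `0..n` (label minus one), `n = p - 1`.
A super edge-magic labelling is the same as: the sums `u + v` over the edges are pairwise
different and fill an interval.
-/

namespace Pool.Agent.MP_1b49f3_co

/-- `G` is super edge-magic: there is a bijection `f` from vertices and edges onto
`{1, ..., p + q}` and a constant `k` with `f u + f (uv) + f v = k` for every edge `uv`, and the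
vertices receive exactly the labels `1, ..., p`. -/
def SuperEdgeMagic {V : Type} (G : SimpleGraph V) : Prop :=
  ∃ f : V ⊕ G.edgeSet → ℕ,
    Set.BijOn f Set.univ (Set.Icc 1 (Nat.card V + Nat.card G.edgeSet)) ∧
    (∃ k : ℕ, ∀ (u v : V) (h : G.Adj u v),
      f (Sum.inl u) + f (Sum.inr ⟨s(u, v), h⟩) + f (Sum.inl v) = k) ∧
    f '' (Set.range Sum.inl) = Set.Icc 1 (Nat.card V)

/-- The relation defined by a choice `L s` of one endpoint of the edge with sum `s`
(the other endpoint is `s - L s`), for all sums `s ≥ 2`. -/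
def Rel (L : ℤ → ℤ) (u v : ℤ) : Prop := 2 ≤ u + v ∧ (L (u + v) = u ∨ L (u + v) = v)

/-- The low structure: a graph on the nonnegative integers with exactly one edge of every sum
`s ≥ 2`, edges of bounded length, no short closed non-backtracking walks, and a `g`-cycle. -/
structure LowStruct (g : ℕ) where
  L : ℤ → ℤ
  E : ℤ
  nonneg : ∀ s, 2 ≤ s → 0 ≤ L s ∧ L s ≤ s
  ne : ∀ s, 2 ≤ s → 2 * L s ≠ s
  len : ∀ s, 2 ≤ s → |2 * L s - s| ≤ E
  girth : ∀ l : ℕ, 3 ≤ l → l < g → ∀ c : ℕ → ℤ, (∀ i, Rel L (c i) (c (i + 1))) →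
    (∀ i, c (i + l) = c i) → (∀ i, c (i + 2) ≠ c i) → False
  cyc : ∃ d : ℕ → ℤ, (∀ i < g, ∀ j < g, d i = d j → i = j) ∧
    (∀ i, i + 1 < g → Rel L (d i) (d (i + 1))) ∧ Rel L (d (g - 1)) (d 0)

end Pool.Agent.MP_1b49f3_co
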