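import Mathlib
import Pool.Agent.MP_1b49f3_co.Defs

set_option autoImplicit false

/-!
# Closing the low structure to a finite super edge-magic graph
-/

namespace Pool.Agent.MP_1b49f3_co

namespace Close

variable {g : ℕ}

/-- The multiplier of the middle edges. -/
def D (S : LowStruct g) : ℤ := g * S.E + 2

/-- Choice of an endpoint for every sum, on the vertices `0..n`. -/
def Ln (S : LowStruct g) (n s : ℤ) : ℤ :=
  if s ≤ n - (S.E + 1) then S.L s
  else if s < n + (S.E + 1) then D S * (s - n + (S.E + 1))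
  else n - S.L (2 * n - s)

/-- Adjacency on the integers `0..n`. -/
def A (S : LowStruct g) (n u v : ℤ) : Prop :=
  2 ≤ u + v ∧ u + v ≤ 2 * n - 2 ∧ (Ln S n (u + v) = u ∨ Ln S n (u + v) = v)

theorem A_symm (S : LowStruct g) (n u v : ℤ) (h : A S n u v) : A S n v u := by
  obtain ⟨h1, h2, h3⟩ := h
  rw [add_comm] at h1 h2 h3
  exact ⟨h1, h2, h3.symm⟩

theorem E_pos (S : LowStruct g) : 1 ≤ S.E := by
  have h1 := S.ne 2 le_rfl
  have h2 := S.len 2 le_rfl
  have h3 : 1 ≤ |2 * S.L 2 - 2| := Int.one_le_abs (by omega)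
  omega

/-- Types of edges. -/
theorem edge_type (S : LowStruct g) (n : ℤ) (hn : 4 * D S * (S.E + 1) + 4 * (S.E + 1) < n)
    (u v : ℤ) (h : A S n u v) :
    (2 * u < n ∧ 2 * v < n ∧ u + v ≤ n - (S.E + 1) ∧ Rel S.L u v ∧ |u - v| ≤ S.E) ∨
    (n < 2 * u ∧ n < 2 * v ∧ Rel S.L (n - u) (n - v)) ∨
    (2 * u < n ∧ n < 2 * v ∧ ∃ j : ℤ, u = D S * j ∧ v = n - (S.E + 1) - (D S - 1) * j) ∨
    (2 * v < n ∧ n < 2 * u ∧ ∃ j : ℤ, v = D S * j ∧ u = n - (S.E + 1) - (D S - 1) * j) := by
  obtain ⟨h1, h2, h3⟩ := h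
  have hE := E_pos S
  have hD : 2 ≤ D S := by
    unfold D
    have : 0 ≤ (g : ℤ) * S.E := by positivity
    linarith
  unfold Ln at h3
  split_ifs at h3 with c1 c2
  · left
    have hl := S.len (u + v) h1
    rw [abs_le] at hl
    obtain ⟨hl1, hl2⟩ := hl
    refine ⟨?_, ?_, c1, ⟨h1, h3⟩, ?_⟩
    · rcases h3 with h3 | h3 <;> rw [h3] at hl1 hl2 <;> omega
    · rcases h3 with h3 | h3 <;> rw [h3] at hl1 hl2 <;> omega
    · rw [abs_le]
      rcases h3 with h3 | h3 <;> rw [h3] at hl1 hl2 <;> omega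
  · right; right
    set j := u + v - n + (S.E + 1) with hj
    have hj1 : 1 ≤ j := by omega
    have hj2 : j < 2 * (S.E + 1) := by omega
    have hDj : D S * j ≤ D S * (2 * (S.E + 1)) := by
      apply mul_le_mul_of_nonneg_left hj2.le (by linarith)
    have hDj0 : 0 ≤ D S * j := by positivity
    have e1 : (D S - 1) * j = D S * j - j := by ring
    have e2 : D S * (2 * (S.E + 1)) = 2 * (D S * (S.E + 1)) := by ring
    have e3 : 4 * D S * (S.E + 1) = 4 * (D S * (S.E + 1)) := by ring
    rcases h3 with h3 | h3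
    · left
      refine ⟨by linarith, by linarith, j, h3.symm, by linarith⟩
    · right
      refine ⟨by linarith, by linarith, j, h3.symm, by linarith⟩
  · right; left
    have hs : 2 ≤ 2 * n - (u + v) := by omega
    have hl := S.len (2 * n - (u + v)) hs
    rw [abs_le] at hl
    obtain ⟨hl1, hl2⟩ := hl
    refine ⟨?_, ?_, ?_⟩
    · rcases h3 with h3 | h3 <;> omega
    · rcases h3 with h3 | h3 <;> omega
    · refine ⟨by omega, ?_⟩
      rw [show n - u + (n - v) = 2 * n - (u + v) by ring]
      rcases h3 with h3 | h3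
      · left; omega
      · right; omega

/-- No short cycles. -/
theorem no_short (S : LowStruct g) (n : ℤ) (hn : 4 * D S * (S.E + 1) + 4 * (S.E + 1) < n)
    (l : ℕ) (hl3 : 3 ≤ l) (hlg : l < g) (c : ℕ → ℤ) (hadj : ∀ i, A S n (c i) (c (i + 1)))
    (hper : ∀ i, c (i + l) = c i) (hinj : ∀ i t, 0 < t → t < l → c (i + t) ≠ c i) : False := by
  have hE := E_pos S
  have hne2 : ∀ i, c (i + 2) ≠ c i := fun i => hinj i 2 (by norm_num) (by omega)
  have hdich : ∀ i, 2 * c i < n ∨ n < 2 * c i := by
    intro i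
    rcases edge_type S n hn _ _ (hadj i) with h | h | h | h
    · exact Or.inl h.1
    · exact Or.inr h.1
    · exact Or.inl h.1
    · exact Or.inr h.2.1
  by_cases hlow : ∀ i, 2 * c i < n
  · refine S.girth l hl3 hlg c ?_ hper hne2
    intro i
    rcases edge_type S n hn _ _ (hadj i) with h | h | h | h
    · exact h.2.2.2.1
    · exact absurd h.1 (by have := hlow i; omega)
    · exact absurd h.2.1 (by have := hlow (i + 1); omega)
    · exact absurd h.2.1 (by have := hlow i; omega)
  by_cases hhigh : ∀ i, n < 2 * c i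
  · refine S.girth l hl3 hlg (fun i => n - c i) ?_ ?_ ?_
    · intro i
      rcases edge_type S n hn _ _ (hadj i) with h | h | h | h
      · exact absurd h.1 (by have := hhigh i; omega)
      · exact h.2.2
      · exact absurd h.1 (by have := hhigh i; omega)
      · exact absurd h.1 (by have := hhigh (i + 1); omega)
    · intro i; simp only [hper]
    · intro i h
      exact hne2 i (by simpa using h)
  push Not at hlow hhigh
  obtain ⟨a, ha⟩ := hlow
  obtain ⟨b, hb⟩ := hhigh
  have ha' : n < 2 * c a := by rcases hdich a with h | h <;> omega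
  have hb' : 2 * c b < n := by rcases hdich b with h | h <;> omega
  -- there is a position m with c m high and c (m+1) low
  have hperk : ∀ k i, c (i + k * l) = c i := by
    intro k
    induction k with
    | zero => intro i; simp
    | succ k ih =>
      intro i
      rw [show i + (k + 1) * l = (i + k * l) + l by ring, hper, ih]
  have hm : ∃ m, n < 2 * c m ∧ 2 * c (m + 1) < n := by
    by_contra hcon
    push Not at hcon
    have hall : ∀ t, n < 2 * c (a + t) := by
      intro t
      induction t with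
      | zero => simpa using ha'
      | succ t ih =>
        have h1 := hcon _ ih
        rcases hdich (a + t + 1) with h | h
        · omega
        · exact h
    have h2 := hall (b + a * (l - 1))
    have h3 : a + (b + a * (l - 1)) = b + a * l := by
      obtain ⟨l', rfl⟩ : ∃ l', l = l' + 1 := ⟨l - 1, by omega⟩
      simp only [Nat.add_sub_cancel]
      ring
    rw [h3, hperk] at h2
    omega
  obtain ⟨m, hm1, hm2⟩ := hm
  -- the first high vertex after m
  have hex : ∃ k, n < 2 * c (m + 1 + (k + 1)) := by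
    refine ⟨l - 2, ?_⟩
    rw [show m + 1 + (l - 2 + 1) = m + l by omega, hper]
    exact hm1
  classical
  set k := Nat.find hex with hk
  have hk1 : n < 2 * c (m + 1 + (k + 1)) := Nat.find_spec hex
  have hk2 : k ≤ l - 2 := by
    apply Nat.find_min' hex
    rw [show m + 1 + (l - 2 + 1) = m + l by omega, hper]
    exact hm1
  have hlowk : ∀ t, t ≤ k → 2 * c (m + 1 + t) < n := by
    intro t ht
    rcases Nat.eq_zero_or_pos t with h0 | h0
    · subst h0; simpa using hm2
    · have h1 := Nat.find_min hex (m := t - 1) (by omega)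
      rw [show m + 1 + (t - 1 + 1) = m + 1 + t by omega] at h1
      rcases hdich (m + 1 + t) with h | h
      · exact h
      · exact absurd h h1
  have hdist : ∀ t : ℕ, t ≤ k → |c (m + 1 + t) - c (m + 1)| ≤ t * S.E := by
    intro t
    induction t with
    | zero => intro _; simp
    | succ t ih =>
      intro ht
      have h1 := ih (by omega)
      have h2 : |c (m + 1 + t) - c (m + 1 + t + 1)| ≤ S.E := by
        rcases edge_type S n hn _ _ (hadj (m + 1 + t)) with h | h | h | h
        · exact h.2.2.2.2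
        · exact absurd h.1 (by have := hlowk t (by omega); omega)
        · exact absurd h.2.1 (by
            have := hlowk (t + 1) ht
            rw [show m + 1 + (t + 1) = m + 1 + t + 1 by ring] at this
            omega)
        · exact absurd h.2.1 (by have := hlowk t (by omega); omega)
      rw [show m + 1 + (t + 1) = m + 1 + t + 1 by ring]
      have h3 : |c (m + 1 + t + 1) - c (m + 1)| ≤
          |c (m + 1 + t + 1) - c (m + 1 + t)| + |c (m + 1 + t) - c (m + 1)| :=
        abs_sub_le _ _ _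
      rw [abs_sub_comm] at h2
      push_cast
      linarith
  -- entering and leaving edges
  have hin : ∃ j : ℤ, c (m + 1) = D S * j ∧ c m = n - (S.E + 1) - (D S - 1) * j := by
    rcases edge_type S n hn _ _ (hadj m) with h | h | h | h
    · exact absurd h.1 (by omega)
    · exact absurd h.2.1 (by omega)
    · exact absurd h.1 (by omega)
    · exact h.2.2
  have hout : ∃ j : ℤ, c (m + 1 + k) = D S * j ∧
      c (m + 1 + k + 1) = n - (S.E + 1) - (D S - 1) * j := by
    have h0 := hlowk k le_rfl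
    have h0' : n < 2 * c (m + 1 + k + 1) := hk1
    rcases edge_type S n hn _ _ (hadj (m + 1 + k)) with h | h | h | h
    · exact absurd h.2.1 (by omega)
    · exact absurd h.1 (by omega)
    · exact h.2.2
    · exact absurd h.1 (by omega)
  obtain ⟨j1, hj1, hj1'⟩ := hin
  obtain ⟨j2, hj2, hj2'⟩ := hout
  have hd := hdist k le_rfl
  have hkg : (k : ℤ) ≤ g := by
    have : k ≤ g := by omega
    exact_mod_cast this
  have hkE : (k : ℤ) * S.E ≤ g * S.E := mul_le_mul_of_nonneg_right hkg (by omega)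
  have hD : D S = g * S.E + 2 := rfl
  have hjj : j1 = j2 := by
    by_contra hne
    have h1 : 1 ≤ |j2 - j1| := Int.one_le_abs (by omega)
    rw [hj2, hj1, ← mul_sub, abs_mul] at hd
    have hDpos : 0 < D S := by
      have : 0 ≤ (g : ℤ) * S.E := by positivity
      omega
    rw [abs_of_pos hDpos] at hd
    have h2 : D S * 1 ≤ D S * |j2 - j1| := mul_le_mul_of_nonneg_left h1 hDpos.le
    omega
  subst hjj
  have hk0 : k = 0 := by
    by_contra hk0
    exact hinj (m + 1) k (by omega) (by omega) (by rw [hj2, hj1])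
  rw [hk0] at hj2'
  refine hne2 m ?_
  rw [show m + 2 = m + 1 + 0 + 1 by ring, hj2', hj1']

/-- Range facts for the chosen endpoints. -/
theorem Ln_range (S : LowStruct g) (n : ℤ) (hn : 4 * D S * (S.E + 1) + 4 * (S.E + 1) < n)
    (s : ℤ) (h1 : 2 ≤ s) (h2 : s ≤ 2 * n - 2) :
    0 ≤ Ln S n s ∧ Ln S n s ≤ n ∧ 0 ≤ s - Ln S n s ∧ s - Ln S n s ≤ n ∧ 2 * Ln S n s ≠ s := by
  have hE := E_pos S
  have hD : 2 ≤ D S := by
    unfold D
    have : 0 ≤ (g : ℤ) * S.E := by positivity
    linarith
  unfold Ln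
  split_ifs with c1 c2
  · have h3 := S.nonneg s h1
    have h4 := S.ne s h1
    refine ⟨h3.1, by omega, by omega, by omega, h4⟩
  · set j := s - n + (S.E + 1) with hj
    have hj1 : 1 ≤ j := by omega
    have hj2 : j < 2 * (S.E + 1) := by omega
    have hDj : D S * j ≤ D S * (2 * (S.E + 1)) := by
      apply mul_le_mul_of_nonneg_left hj2.le (by linarith)
    have hDj0 : 0 ≤ D S * j := by positivity
    have e2 : D S * (2 * (S.E + 1)) = 2 * (D S * (S.E + 1)) := by ring
    have e3 : 4 * D S * (S.E + 1) = 4 * (D S * (S.E + 1)) := by ring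
    have hpos : 0 ≤ D S * (S.E + 1) := by positivity
    have hDj' : j ≤ D S * j := by nlinarith
    refine ⟨hDj0, by linarith, by linarith, by linarith, fun h => ?_⟩
    linarith
  · have h3 := S.nonneg (2 * n - s) (by omega)
    have h4 := S.ne (2 * n - s) (by omega)
    refine ⟨by omega, by omega, by omega, by omega, by omega⟩

/-- The graph on `Fin p`. -/
def G (S : LowStruct g) (p : ℕ) : SimpleGraph (Fin p) where
  Adj u v := u ≠ v ∧ A S ((p : ℤ) - 1) ((u : ℕ) : ℤ) ((v : ℕ) : ℤ)
  symm := ⟨fun _ _ h => ⟨h.1.symm, A_symm S _ _ _ h.2⟩⟩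
  loopless := ⟨fun _ h => h.1 rfl⟩

/-- Sum of the two ends of an edge. -/
def sumE {p : ℕ} : Sym2 (Fin p) → ℤ :=
  Sym2.lift ⟨fun u v => ((u : ℕ) : ℤ) + ((v : ℕ) : ℤ), fun _ _ => add_comm _ _⟩

@[simp] theorem sumE_mk {p : ℕ} (u v : Fin p) :
    sumE s(u, v) = ((u : ℕ) : ℤ) + ((v : ℕ) : ℤ) := rfl

theorem sumE_mem (S : LowStruct g) (p : ℕ) (e : Sym2 (Fin p)) (he : e ∈ (G S p).edgeSet) :
    2 ≤ sumE e ∧ sumE e ≤ 2 * ((p : ℤ) - 1) - 2 := by
  induction e with
  | _ _ _ => exact ⟨he.2.1, he.2.2.1⟩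

theorem sumE_inj (S : LowStruct g) (p : ℕ) (e e' : Sym2 (Fin p)) (he : e ∈ (G S p).edgeSet)
    (he' : e' ∈ (G S p).edgeSet) (h : sumE e = sumE e') : e = e' := by
  induction e with
  | _ u v =>
    induction e' with
    | _ a b =>
      simp only [sumE_mk] at h
      rw [SimpleGraph.mem_edgeSet] at he he'
      have h1 : Ln S ((p : ℤ) - 1) (((u : ℕ) : ℤ) + ((v : ℕ) : ℤ)) = ((u : ℕ) : ℤ) ∨
        Ln S ((p : ℤ) - 1) (((u : ℕ) : ℤ) + ((v : ℕ) : ℤ)) = ((v : ℕ) : ℤ) := he.2.2.2
      have h2 : Ln S ((p : ℤ) - 1) (((a : ℕ) : ℤ) + ((b : ℕ) : ℤ)) = ((a : ℕ) : ℤ) ∨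
        Ln S ((p : ℤ) - 1) (((a : ℕ) : ℤ) + ((b : ℕ) : ℤ)) = ((b : ℕ) : ℤ) := he'.2.2.2
      rw [h] at h1
      rw [Sym2.eq_iff]
      simp only [Fin.ext_iff]
      rcases h1 with h1 | h1 <;> rcases h2 with h2 | h2 <;> rw [h1] at h2 <;> omega

theorem sumE_surj (S : LowStruct g) (p : ℕ)
    (hn : 4 * D S * (S.E + 1) + 4 * (S.E + 1) < (p : ℤ) - 1)
    (s : ℤ) (h1 : 2 ≤ s) (h2 : s ≤ 2 * ((p : ℤ) - 1) - 2) :
    ∃ e ∈ (G S p).edgeSet, sumE e = s := by
  obtain ⟨a1, a2, a3, a4, a5⟩ := Ln_range S _ hn s h1 h2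
  set t := Ln S ((p : ℤ) - 1) s with ht
  refine ⟨s(⟨t.toNat, by omega⟩, ⟨(s - t).toNat, by omega⟩), ?_, ?_⟩
  · rw [SimpleGraph.mem_edgeSet]
    refine ⟨?_, ?_⟩
    · simp only [ne_eq, Fin.mk.injEq]
      omega
    · have e1 : ((t.toNat : ℕ) : ℤ) = t := Int.toNat_of_nonneg a1
      have e2 : (((s - t).toNat : ℕ) : ℤ) = s - t := Int.toNat_of_nonneg a3
      simp only [e1, e2]
      refine ⟨by omega, by omega, Or.inl ?_⟩
      rw [show t + (s - t) = s by ring]
  · simp only [sumE_mk]
    omega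

theorem card_edge (S : LowStruct g) (p : ℕ)
    (hn : 4 * D S * (S.E + 1) + 4 * (S.E + 1) < (p : ℤ) - 1) :
    Nat.card (G S p).edgeSet = 2 * p - 5 := by
  have hb : Function.Bijective (fun e : (G S p).edgeSet =>
      (⟨sumE e.1, Finset.mem_Icc.mpr (sumE_mem S p e.1 e.2)⟩ :
        Finset.Icc (2 : ℤ) (2 * ((p : ℤ) - 1) - 2))) := by
    constructor
    · rintro ⟨e, he⟩ ⟨e', he'⟩ h
      simp only [Subtype.mk.injEq] at h
      exact Subtype.ext (sumE_inj S p e e' he he' h)
    · rintro ⟨s, hs⟩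
      rw [Finset.mem_Icc] at hs
      obtain ⟨e, he, h⟩ := sumE_surj S p hn s hs.1 hs.2
      exact ⟨⟨e, he⟩, Subtype.ext h⟩
  rw [Nat.card_eq_of_bijective _ hb]
  simp only [Nat.card_eq_fintype_card, Fintype.card_coe, Int.card_Icc]
  omega

theorem superEdgeMagic (S : LowStruct g) (p : ℕ)
    (hn : 4 * D S * (S.E + 1) + 4 * (S.E + 1) < (p : ℤ) - 1) :
    SuperEdgeMagic (G S p) := by
  have hE := E_pos S
  have hD : 2 ≤ D S := by
    unfold D
    have : 0 ≤ (g : ℤ) * S.E := by positivity
    linarith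
  have hpbig : 20 ≤ p := by
    have : 8 ≤ 4 * D S * (S.E + 1) := by nlinarith
    have : 16 ≤ 4 * D S * (S.E + 1) := by nlinarith
    omega
  have hcard := card_edge S p hn
  refine ⟨Sum.elim (fun v => (v : ℕ) + 1) (fun e => (3 * ((p : ℤ) - 1) - sumE e.1).toNat),
    ⟨?_, ?_, ?_⟩, ⟨3 * (p - 1) + 2, ?_⟩, ?_⟩
  · rintro x -
    rw [hcard, Nat.card_eq_fintype_card, Fintype.card_fin, Set.mem_Icc]
    rcases x with v | ⟨e, he⟩
    · have := v.2
      simp only [Sum.elim_inl]
      omega
    · have := sumE_mem S p e he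
      simp only [Sum.elim_inr]
      omega
  · rintro x - y - h
    rcases x with v | ⟨e, he⟩ <;> rcases y with w | ⟨e', he'⟩
    · simp only [Sum.elim_inl, Nat.add_right_cancel_iff] at h
      rw [Fin.ext h]
    · exfalso
      have := sumE_mem S p e' he'
      have := v.2
      simp only [Sum.elim_inl, Sum.elim_inr] at h
      omega
    · exfalso
      have := sumE_mem S p e he
      have := w.2
      simp only [Sum.elim_inl, Sum.elim_inr] at h
      omega
    · have h1 := sumE_mem S p e he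
      have h2 := sumE_mem S p e' he'
      simp only [Sum.elim_inr] at h
      congr 1
      exact Subtype.ext (sumE_inj S p e e' he he' (by omega))
  · rintro y hy
    rw [hcard, Nat.card_eq_fintype_card, Fintype.card_fin, Set.mem_Icc] at hy
    by_cases hyp : y ≤ p
    · refine ⟨Sum.inl ⟨y - 1, by omega⟩, Set.mem_univ _, ?_⟩
      simp only [Sum.elim_inl]
      omega
    · obtain ⟨e, he, h⟩ := sumE_surj S p hn (3 * ((p : ℤ) - 1) - y) (by omega) (by omega)
      refine ⟨Sum.inr ⟨e, he⟩, Set.mem_univ _, ?_⟩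
      simp only [Sum.elim_inr]
      omega
  · intro u v h
    have h1 := sumE_mem S p _ ((SimpleGraph.mem_edgeSet _).mpr h)
    simp only [Sum.elim_inl, Sum.elim_inr, sumE_mk] at h1 ⊢
    omega
  · ext y
    rw [Nat.card_eq_fintype_card, Fintype.card_fin, Set.mem_Icc]
    constructor
    · rintro ⟨_, ⟨v, rfl⟩, rfl⟩
      have := v.2
      simp only [Sum.elim_inl]
      omega
    · rintro ⟨h1, h2⟩
      refine ⟨Sum.inl ⟨y - 1, by omega⟩, ⟨_, rfl⟩, ?_⟩
      simp only [Sum.elim_inl]
      omega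

theorem girth_ge (S : LowStruct g) (p : ℕ)
    (hn : 4 * D S * (S.E + 1) + 4 * (S.E + 1) < (p : ℤ) - 1) :
    (g : ℕ∞) ≤ (G S p).egirth := by
  rw [SimpleGraph.le_egirth]
  intro a w hw
  rw [Nat.cast_le]
  by_contra hlt
  push Not at hlt
  set l := w.length with hl
  have hl3 : 3 ≤ l := hw.three_le_length
  refine no_short S _ hn l hl3 hlt (fun i => ((w.getVert (i % l) : ℕ) : ℤ)) ?_ ?_ ?_
  · intro i
    have hi : i % l < l := Nat.mod_lt _ (by omega)
    have h1 := w.adj_getVert_succ hi
    have h2 : w.getVert ((i + 1) % l) = w.getVert (i % l + 1) := by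
      by_cases hc : i % l + 1 < l
      · congr 1
        rw [Nat.add_mod, Nat.mod_eq_of_lt (show 1 < l by omega), Nat.mod_eq_of_lt hc]
      · have hc' : i % l + 1 = l := by omega
        have h3 : (i + 1) % l = 0 := by
          rw [Nat.add_mod, Nat.mod_eq_of_lt (show 1 < l by omega), hc', Nat.mod_self]
        rw [h3, hc', hl, SimpleGraph.Walk.getVert_length, SimpleGraph.Walk.getVert_zero]
    simp only [h2]
    exact h1.2
  · intro i
    simp only [Nat.add_mod_right]
  · intro i t ht0 htl h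
    have h1 : w.getVert ((i + t) % l) = w.getVert (i % l) := by
      have : ((w.getVert ((i + t) % l) : Fin p) : ℕ) = ((w.getVert (i % l) : Fin p) : ℕ) := by
        exact_mod_cast h
      exact Fin.ext this
    have h2 : (i + t) % l < l := Nat.mod_lt _ (by omega)
    have h3 : i % l < l := Nat.mod_lt _ (by omega)
    have h4 := hw.getVert_injOn' (by simp only [Set.mem_ofPred_eq]; omega)
      (by simp only [Set.mem_ofPred_eq]; omega) h1
    have h5 : i + t ≡ i + 0 [MOD l] := h4
    have h6 := Nat.ModEq.add_left_cancel' i h5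
    have h7 : t % l = 0 := by simpa [Nat.ModEq] using h6
    rw [Nat.mod_eq_of_lt htl] at h7
    omega

theorem girth_le (S : LowStruct g) (hg : 4 ≤ g) :
    ∃ P : ℕ, ∀ p ≥ P, (G S p).egirth ≤ (g : ℕ∞) := by
  obtain ⟨d, hd1, hd2, hd3⟩ := S.cyc
  have hE := E_pos S
  set B : ℤ := ∑ i ∈ Finset.range g, |d i| with hB
  have hBi : ∀ i, i < g → |d i| ≤ B := by
    intro i hi
    exact Finset.single_le_sum (f := fun i => |d i|) (fun j _ => abs_nonneg _)
      (Finset.mem_range.mpr hi)
  have hB0 : 0 ≤ B := Finset.sum_nonneg (fun j _ => abs_nonneg _)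
  refine ⟨(2 * B + S.E + 10).toNat, fun p hp => ?_⟩
  have hp' : 2 * B + S.E + 10 ≤ (p : ℤ) := by omega
  have key : ∀ i j, i < g → j < g → Rel S.L (d i) (d j) →
      A S ((p : ℤ) - 1) (d i) (d j) ∧ 0 ≤ d i ∧ d i < p ∧ 0 ≤ d j ∧ d j < p := by
    intro i j hi hj h
    obtain ⟨h1, h2⟩ := h
    have h3 := S.nonneg _ h1
    have h4 := hBi i hi
    have h5 := hBi j hj
    rw [abs_le] at h4 h5
    have h6 : Ln S ((p : ℤ) - 1) (d i + d j) = S.L (d i + d j) := by
      unfold Ln
      rw [if_pos (by omega)]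
    refine ⟨⟨h1, by omega, by rw [h6]; exact h2⟩, ?_⟩
    rcases h2 with h2 | h2 <;> rw [h2] at h3 <;> omega
  have hrel : ∀ i, i < g → 0 ≤ d i ∧ d i < p := by
    intro i hi
    by_cases hi' : i + 1 < g
    · have := key i (i + 1) hi hi' (hd2 i hi')
      exact ⟨this.2.1, this.2.2.1⟩
    · have hi2 : i = g - 1 := by omega
      subst hi2
      have := key (g - 1) 0 hi (by omega) hd3
      exact ⟨this.2.1, this.2.2.1⟩
  have hc : (SimpleGraph.cycleGraph g).IsContained (G S p) := by
    refine ⟨⟨⟨fun i => ⟨(d i).toNat, by have := hrel i i.2; omega⟩, ?_⟩, ?_⟩⟩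
    · have main : ∀ a b : Fin g, (a - b).val = 1 →
          (G S p).Adj ⟨(d a).toNat, by have := hrel a a.2; omega⟩
            ⟨(d b).toNat, by have := hrel b b.2; omega⟩ := by
        intro a b hab
        have ha := hrel a a.2
        have hb := hrel b b.2
        have e1 : (((d a).toNat : ℕ) : ℤ) = d a := Int.toNat_of_nonneg ha.1
        have e2 : (((d b).toNat : ℕ) : ℤ) = d b := Int.toNat_of_nonneg hb.1
        have hne : (a : ℕ) ≠ b := by
          intro h
          rw [Fin.sub_val_of_le (le_of_eq (Fin.ext h.symm))] at hab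
          omega
        refine ⟨?_, ?_⟩
        · intro h
          simp only [Fin.mk.injEq] at h
          have : d a = d b := by omega
          exact hne (hd1 a a.2 b b.2 this)
        · simp only [e1, e2]
          apply A_symm
          rcases le_or_gt b a with hle | hlt
          · rw [Fin.sub_val_of_le hle] at hab
            have : (a : ℕ) = b + 1 := by omega
            rw [this]
            exact (key b (b + 1) b.2 (by omega) (hd2 b (by omega))).1
          · rw [Fin.coe_sub_iff_lt.mpr hlt] at hab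
            have h1 : (a : ℕ) = 0 := by have := b.2; omega
            have h2 : (b : ℕ) = g - 1 := by have := b.2; omega
            rw [h1, h2]
            exact (key (g - 1) 0 (by omega) (by omega) hd3).1
      intro a b hab
      rcases SimpleGraph.cycleGraph_adj'.mp hab with h | h
      · exact main a b h
      · exact (main b a h).symm
    · intro a b hab
      have ha := hrel a a.2
      have hb := hrel b b.2
      simp only [RelHom.coeFn_mk, Fin.mk.injEq] at hab
      have : d a = d b := by omega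
      exact Fin.ext (hd1 a a.2 b b.2 this)
  rw [SimpleGraph.cycleGraph_isContained_iff (by omega)] at hc
  obtain ⟨v, w, hw, hwl⟩ := hc
  refine le_of_le_of_eq (SimpleGraph.egirth_le_length hw) ?_
  rw [hwl]

end Close

/-- **Closing.** A low structure yields, for all large `p`, a super edge-magic graph on `p`
vertices with `2p - 5` edges and girth `g`. -/
theorem close (g : ℕ) (hg : 4 ≤ g) (S : LowStruct g) :
    ∃ P : ℕ, ∀ p ≥ P, ∃ G : SimpleGraph (Fin p),
      SuperEdgeMagic G ∧ G.girth = g ∧ Nat.card G.edgeSet = 2 * p - 5 := by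
  obtain ⟨P, hP⟩ := Close.girth_le S hg
  refine ⟨max P ((4 * Close.D S * (S.E + 1) + 4 * (S.E + 1)).toNat + 2), fun p hp => ?_⟩
  have hp1 : P ≤ p := le_trans (le_max_left _ _) hp
  have hp2 : (4 * Close.D S * (S.E + 1) + 4 * (S.E + 1)).toNat + 2 ≤ p :=
    le_trans (le_max_right _ _) hp
  have hn : 4 * Close.D S * (S.E + 1) + 4 * (S.E + 1) < (p : ℤ) - 1 := by omega
  refine ⟨Close.G S p, Close.superEdgeMagic S p hn, ?_, Close.card_edge S p hn⟩
  have h : (Close.G S p).egirth = (g : ℕ∞) :=
    le_antisymm (hP p hp1) (Close.girth_ge S p hn)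
  rw [SimpleGraph.girth, h, ENat.toNat_natCast]

end Pool.Agent.MP_1b49f3_co
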