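import Mathlib

set_option autoImplicit false

/-!
# Permutations of `ZMod (p^n)` acting freely on short words, with `v + π v` bijective
-/

namespace Pool.Agent.MP_1b49f3_co

/-! ### Action on functions on words (the head of the list is the last letter) -/

/-- Right multiplication by `1 + e * X_t` in the algebra of words without equal neighbours. -/
def actL {p : ℕ} (t : Fin 4) (e : ZMod p) (G : List (Fin 4) → ZMod p) :
    List (Fin 4) → ZMod p
  | [] => G []
  | (s :: u) => G (s :: u) + if s = t ∧ u.head? ≠ some t then e * G u else 0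

lemma head?_take_ne (t : Fin 4) (u : List (Fin 4)) (k : ℕ) (h : u.head? ≠ some t) :
    (u.take k).head? ≠ some t := by
  cases k with
  | zero => simp
  | succ k =>
    cases u with
    | nil => simp
    | cons a u => simpa using h

lemma chain_head?_ne {s : Fin 4} {u : List (Fin 4)} (h : List.IsChain (· ≠ ·) (s :: u)) :
    u.head? ≠ some s := by
  cases u with
  | nil => simp
  | cons a u =>
    simp only [List.isChain_cons_cons] at h
    simp only [List.head?_cons, ne_eq, Option.some.injEq]
    exact fun h' => h.1 h'.symm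

/-- The convolution formula. -/
lemma conv_formula {p : ℕ} (t : ℕ → Fin 4) (e : ℕ → ZMod p)
    (G D : ℕ → List (Fin 4) → ZMod p)
    (hG : ∀ i, G (i + 1) = actL (t i) (e i) (G i))
    (hD : ∀ i, D (i + 1) = actL (t i) (e i) (D i))
    (hD0 : ∀ u, D 0 u = if u = [] then 1 else 0) (i : ℕ) :
    ∀ v : List (Fin 4), List.IsChain (· ≠ ·) v →
      G i v = ∑ k ∈ Finset.range (v.length + 1), D i (v.take k) * G 0 (v.drop k) := by
  induction i with
  | zero =>
    intro v _
    rw [Finset.sum_range_succ']
    rw [Finset.sum_eq_zero]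
    · simp [hD0]
    · intro k hk
      have : v.take (k + 1) ≠ [] := by
        cases v with
        | nil => simp at hk
        | cons a v => simp
      simp [hD0, this]
  | succ i ih =>
    intro v hv
    cases v with
    | nil =>
      have := ih [] hv
      simpa [hG, hD, actL] using this
    | cons s u =>
      have hu : List.IsChain (· ≠ ·) u := hv.tail
      have hne := chain_head?_ne hv
      have h1 := ih (s :: u) hv
      have h2 := ih u hu
      rw [hG, hD]
      rw [Finset.sum_range_succ'] at h1 ⊢
      simp only [List.take_succ_cons, List.drop_succ_cons, List.take_zero, List.drop_zero,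
        List.length_cons] at h1 ⊢
      by_cases hs : s = t i
      · subst hs
        simp only [actL, true_and]
        rw [if_pos hne, h1, h2]
        have : ∀ k ∈ Finset.range (u.length + 1),
            (D i (t i :: u.take k) + if (u.take k).head? ≠ some (t i) then
              e i * D i (u.take k) else 0) * G 0 (u.drop k) =
            D i (t i :: u.take k) * G 0 (u.drop k) + e i * (D i (u.take k) * G 0 (u.drop k)) := by
          intro k _
          rw [if_pos (head?_take_ne _ _ _ hne)]
          ring
        rw [Finset.sum_congr rfl this, Finset.sum_add_distrib, ← Finset.mul_sum]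
        ring
      · simp only [actL]
        simp only [hs, false_and, if_false, add_zero]
        exact h1

/-- If `G` is fixed by a word then the word acts trivially on `δ`. -/
lemma D_zero {p : ℕ} (t : ℕ → Fin 4) (e : ℕ → ZMod p)
    (G D : ℕ → List (Fin 4) → ZMod p)
    (hG : ∀ i, G (i + 1) = actL (t i) (e i) (G i))
    (hD : ∀ i, D (i + 1) = actL (t i) (e i) (D i))
    (hD0 : ∀ u, D 0 u = if u = [] then 1 else 0) (l : ℕ) (hG0 : G 0 [] = 1)
    (hfix : ∀ v : List (Fin 4), v.length ≤ l → G l v = G 0 v) :
    ∀ m, ∀ v : List (Fin 4), v.length = m → v ≠ [] → v.length ≤ l → List.IsChain (· ≠ ·) v →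
      D l v = 0 := by
  have hDnil : ∀ i, D i [] = 1 := by
    intro i
    induction i with
    | zero => simp [hD0]
    | succ i ih => rw [hD]; simpa [actL] using ih
  intro m
  induction m using Nat.strong_induction_on with
  | _ m ih =>
    intro v hvm hv hvl hc
    have h := conv_formula t e G D hG hD hD0 l v hc
    rw [hfix v hvl, Finset.sum_range_succ] at h
    have hlen : 0 < v.length := List.length_pos_iff.mpr hv
    obtain ⟨k, hk⟩ : ∃ k, v.length = k + 1 := ⟨v.length - 1, by omega⟩
    rw [hk, Finset.sum_range_succ'] at h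
    rw [Finset.sum_eq_zero] at h
    · rw [← hk] at h
      simp only [List.take_zero, List.drop_zero, hDnil, List.take_length, List.drop_length, hG0]
        at h
      have : D l v = 0 := by linear_combination -h
      exact this
    · intro j hj
      have hj' : j < k := Finset.mem_range.mp hj
      have hlt : (v.take (j + 1)).length = j + 1 := by
        rw [List.length_take]; omega
      rw [ih (j + 1) (by omega) (v.take (j + 1)) hlt (by
        intro h0; rw [h0] at hlt; simp at hlt) (by omega) (hc.take _), zero_mul]

/-- The leading coefficient of a reduced word. -/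
lemma D_lead {p : ℕ} [Fact p.Prime] (t : ℕ → Fin 4) (σ : ℕ → Bool)
    (D : ℕ → List (Fin 4) → ZMod p)
    (hD : ∀ i, D (i + 1) = actL (t i) (if σ i then 1 else -1) (D i))
    (hD0 : ∀ u, D 0 u = if u = [] then 1 else 0) (l : ℕ)
    (hred : ∀ i, i + 1 < l → t (i + 1) = t i → σ (i + 1) = σ i) (hlp : l < p) :
    ∀ i, i < l → ∃ (u : List (Fin 4)) (P : ZMod p) (e : ℤ),
      List.IsChain (· ≠ ·) (t i :: u) ∧ u.length ≤ i ∧ P ≠ 0 ∧ D (i + 1) u = P ∧
      D (i + 1) (t i :: u) = e * P ∧ (σ i = true → 1 ≤ e ∧ e ≤ i + 1) ∧
      (σ i = false → e ≤ -1 ∧ -((i : ℤ) + 1) ≤ e) ∧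
      (∀ v : List (Fin 4), u.length + 1 ≤ v.length →
        ¬ (v.length = u.length + 1 ∧ v.head? = some (t i)) → D (i + 1) v = 0) := by
  intro i
  induction i with
  | zero =>
    intro _
    refine ⟨[], 1, if σ 0 then 1 else -1, by simp, by simp, one_ne_zero, ?_, ?_, ?_, ?_, ?_⟩
    · rw [hD]; simp [actL, hD0]
    · rw [hD]; simp only [actL, hD0]; cases σ 0 <;> simp
    · intro h; simp [h]
    · intro h; simp [h]
    · intro v hv hv2
      rw [hD]
      cases v with
      | nil => simp at hv
      | cons s w =>
        simp only [actL, hD0]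
        cases w with
        | nil =>
          have : s ≠ t 0 := by
            intro h; apply hv2; simp [h]
          simp [this]
        | cons a w => simp
  | succ i ih =>
    intro hil
    obtain ⟨u, P, e, hch, hul, hP, hu, hsu, he1, he2, hI⟩ := ih (by omega)
    have hne : u.head? ≠ some (t i) := chain_head?_ne hch
    by_cases ht : t (i + 1) = t i
    · have hσ := hred i hil ht
      refine ⟨u, P, e + (if σ i then 1 else -1), ?_, by omega, hP, ?_, ?_, ?_, ?_, ?_⟩
      · rw [ht]; exact hch
      · rw [hD, ht]
        cases u with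
        | nil => simpa [actL] using hu
        | cons a w =>
          have : a ≠ t i := by
            intro h; apply hne; simp [h]
          simp only [actL, this, false_and, if_false, add_zero]
          exact hu
      · rw [hD, ht, hσ]
        simp only [actL, true_and]
        rw [if_pos hne, hsu, hu]
        cases σ i <;> simp <;> ring
      · intro h
        rw [hσ] at h
        have := he1 h
        rw [h]; push_cast; simp; omega
      · intro h
        rw [hσ] at h
        have := he2 h
        rw [h]; push_cast; simp; omega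
      · intro v hv hv2
        rw [ht] at hv2
        rw [hD, ht]
        cases v with
        | nil => simp at hv
        | cons s w =>
          simp only [actL]
          have h0 := hI (s :: w) hv hv2
          rw [h0, zero_add]
          by_cases hc : s = t i ∧ w.head? ≠ some (t i)
          · rw [if_pos hc]
            obtain ⟨hs, hw⟩ := hc
            have hwl : u.length + 1 ≤ w.length := by
              by_contra hcon
              apply hv2
              simp only [List.length_cons, List.head?_cons, hs, and_true] at hv ⊢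
              omega
            rw [hI w hwl (by tauto), mul_zero]
          · rw [if_neg hc]
    · refine ⟨t i :: u, e * P, if σ (i + 1) then 1 else -1, ?_, by simp; omega, ?_, ?_, ?_, ?_,
        ?_, ?_⟩
      · rw [List.isChain_cons_cons]; exact ⟨ht, hch⟩
      · apply mul_ne_zero _ hP
        intro h0
        have hdvd : (p : ℤ) ∣ e := by
          have := (ZMod.intCast_zmod_eq_zero_iff_dvd e p).mp h0
          exact this
        cases hσ : σ i with
        | true =>
          have := he1 hσ
          have := Int.le_of_dvd (by omega) hdvd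
          omega
        | false =>
          have := he2 hσ
          have h3 : (p : ℤ) ∣ -e := (dvd_neg).mpr hdvd
          have := Int.le_of_dvd (by omega) h3
          omega
      · rw [hD]
        have : t i ≠ t (i + 1) := fun h => ht h.symm
        simp only [actL, this, false_and, if_false, add_zero]
        exact hsu
      · rw [hD]
        simp only [actL, true_and]
        rw [if_pos (by simp; exact fun h => ht h.symm), hsu]
        rw [hI (t (i + 1) :: t i :: u) (by simp) (by simp), zero_add]
        cases σ (i + 1) <;> simp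
      · intro h; rw [h]; simp; omega
      · intro h; rw [h]; simp
      · intro v hv hv2
        rw [hD]
        cases v with
        | nil => simp at hv
        | cons s w =>
          simp only [actL]
          simp only [List.length_cons, List.head?_cons] at hv hv2
          rw [hI (s :: w) (by simp; omega) (by simp; omega), zero_add]
          by_cases hc : s = t (i + 1) ∧ w.head? ≠ some (t (i + 1))
          · rw [if_pos hc]
            obtain ⟨hs, hw⟩ := hc
            have hwl : u.length + 1 + 1 ≤ w.length := by
              by_contra hcon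
              apply hv2
              constructor
              · omega
              · simp [hs]
            rw [hI w (by omega) (by omega), mul_zero]
          · rw [if_neg hc]

/-- No reduced word of length `< p` fixes a function with `G [] = 1`. -/
lemma free_word {p : ℕ} [Fact p.Prime] (t : ℕ → Fin 4) (σ : ℕ → Bool)
    (G : ℕ → List (Fin 4) → ZMod p)
    (hG : ∀ i, G (i + 1) = actL (t i) (if σ i then 1 else -1) (G i)) (l : ℕ) (hl : 0 < l)
    (hred : ∀ i, i + 1 < l → t (i + 1) = t i → σ (i + 1) = σ i) (hlp : l < p)
    (hG0 : G 0 [] = 1) (hfix : ∀ v : List (Fin 4), v.length ≤ l → G l v = G 0 v) : False := by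
  let D : ℕ → List (Fin 4) → ZMod p := fun i =>
    Nat.rec (fun u => if u = [] then 1 else 0)
      (fun i F => actL (t i) (if σ i then 1 else -1) F) i
  have hD0 : ∀ u, D 0 u = if u = [] then 1 else 0 := fun u => rfl
  have hD : ∀ i, D (i + 1) = actL (t i) (if σ i then 1 else -1) (D i) := fun i => rfl
  obtain ⟨k, rfl⟩ : ∃ k, l = k + 1 := ⟨l - 1, by omega⟩
  obtain ⟨u, P, e, hch, hul, hP, -, hsu, he1, he2, -⟩ :=
    D_lead t σ D hD hD0 (k + 1) hred hlp k (by omega)
  have h0 := D_zero t (fun i => if σ i then 1 else -1) G D hG hD hD0 (k + 1) hG0 hfix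
    (t k :: u).length (t k :: u) rfl (by simp) (by simp; omega) hch
  rw [hsu] at h0
  rcases mul_eq_zero.mp h0 with h1 | h1
  · have hdvd : (p : ℤ) ∣ e := (ZMod.intCast_zmod_eq_zero_iff_dvd e p).mp h1
    cases hσ : σ k with
    | true =>
      have := he1 hσ
      have := Int.le_of_dvd (by omega) hdvd
      omega
    | false =>
      have := he2 hσ
      have h3 : (p : ℤ) ∣ -e := (dvd_neg).mpr hdvd
      have := Int.le_of_dvd (by omega) h3
      omega
  · exact hP h1

/-! ### Coordinates -/

/-- The number of a word. -/
def idx : List (Fin 4) → ℕ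
  | [] => 0
  | (t :: u) => 4 * idx u + t.val + 1

lemma idx_lt (u : List (Fin 4)) : idx u + 1 ≤ 5 ^ u.length := by
  induction u with
  | nil => simp [idx]
  | cons t u ih =>
    have := t.isLt
    simp only [idx, List.length_cons, pow_succ]
    omega

lemma idx_head (t : Fin 4) (u : List (Fin 4)) :
    u.head? ≠ some t ↔ (idx u = 0 ∨ (idx u - 1) % 4 ≠ t.val) := by
  cases u with
  | nil => simp [idx]
  | cons a w =>
    have := a.isLt
    have h1 : (idx (a :: w) - 1) % 4 = a.val := by
      simp only [idx]; omega
    rw [h1]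
    have h2 : idx (a :: w) ≠ 0 := by simp [idx]
    simp only [List.head?_cons, ne_eq, Option.some.injEq, h2, false_or]
    rw [Fin.ext_iff]

/-- Extension of a vector by `1` at `0` and `0` beyond the end. -/
def ext {p n : ℕ} (f : Fin n → ZMod p) : ℕ → ZMod p
  | 0 => 1
  | (k + 1) => if h : k < n then f ⟨k, h⟩ else 0

/-- The action on vectors. -/
def actV {p n : ℕ} (t : Fin 4) (e : ZMod p) (f : Fin n → ZMod p) : Fin n → ZMod p := fun i =>
  f i + if i.val % 4 = t.val ∧ (i.val / 4 = 0 ∨ (i.val / 4 - 1) % 4 ≠ t.val) then
    e * ext f (i.val / 4) else 0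

lemma ext_actV {p n : ℕ} (t : Fin 4) (e : ZMod p) (f : Fin n → ZMod p)
    (u : List (Fin 4)) (hu : idx u ≤ n) :
    ext (actV t e f) (idx u) = actL t e (fun v => ext f (idx v)) u := by
  cases u with
  | nil => simp [idx, ext, actL]
  | cons s w =>
    have hs := s.isLt
    simp only [idx] at hu
    have hlt : 4 * idx w + s.val < n := by omega
    simp only [idx, ext, actL, hlt, dif_pos, actV]
    have h1 : (4 * idx w + s.val) % 4 = s.val := by omega
    have h2 : (4 * idx w + s.val) / 4 = idx w := by omega
    rw [h1, h2]
    congr 1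
    by_cases hst : s = t
    · subst hst
      simp only [true_and]
      have := idx_head s w
      by_cases hh : w.head? ≠ some s
      · rw [if_pos (this.mp hh), if_pos hh]
      · rw [if_neg (fun h => hh (this.mpr h)), if_neg hh]
    · have hst' : s.val ≠ t.val := fun h => hst (Fin.ext h)
      simp [hst, hst']

lemma ext_lower {p n : ℕ} (f f' : Fin n → ZMod p) (i : Fin n) (h : ∀ j < i, f j = f' j)
    (k : ℕ) (hk : k ≤ i.val) : ext f k = ext f' k := by
  cases k with
  | zero => rfl
  | succ k =>
    have : k < n := by omega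
    simp only [ext, this, dif_pos]
    apply h
    rw [Fin.lt_def]
    exact hk

lemma actV_neg {p n : ℕ} (t : Fin 4) (e : ZMod p) (f : Fin n → ZMod p) :
    actV t (-e) (actV t e f) = f := by
  funext i
  simp only [actV]
  by_cases hc : i.val % 4 = t.val ∧ (i.val / 4 = 0 ∨ (i.val / 4 - 1) % 4 ≠ t.val)
  · rw [if_pos hc, if_pos hc]
    have : ext (actV t e f) (i.val / 4) = ext f (i.val / 4) := by
      rcases Nat.eq_zero_or_pos (i.val / 4) with h0 | h0
      · rw [h0]; rfl
      · obtain ⟨k, hk⟩ : ∃ k, i.val / 4 = k + 1 := ⟨i.val / 4 - 1, by omega⟩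
        rw [hk] at hc ⊢
        have hkn : k < n := by
          have := i.isLt
          omega
        simp only [ext, hkn, dif_pos, actV]
        rw [if_neg]
        · simp
        · intro h
          rcases hc.2 with h2 | h2
          · omega
          · exact h2 (by simpa using h.1)
    rw [this]
    ring
  · rw [if_neg hc, if_neg hc]; ring

/-! ### Digits -/

/-- Base `p` value of a digit vector, least significant digit first. -/
def psi (p : ℕ) : (n : ℕ) → (Fin n → ZMod p) → ℕ
  | 0, _ => 0
  | (n + 1), f => (f 0).val + p * psi p n (Fin.tail f)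

lemma digit_step (p : ℕ) (hp : 0 < p) (n : ℕ) (A A' B B' : ℤ)
    (h : (p : ℤ) ^ (n + 1) ∣ (A + p * B) - (A' + p * B')) :
    (p : ℤ) ∣ A - A' ∧ (A = A' → (p : ℤ) ^ n ∣ B - B') := by
  constructor
  · have h1 : (p : ℤ) ∣ (A + p * B) - (A' + p * B') := by
      refine dvd_trans ?_ h
      rw [pow_succ]
      exact dvd_mul_left _ _
    have h2 : A - A' = ((A + p * B) - (A' + p * B')) - p * (B - B') := by ring
    rw [h2]
    exact dvd_sub h1 (dvd_mul_right _ _)
  · intro hA
    subst hA
    have h2 : (A + p * B) - (A + p * B') = p * (B - B') := by ring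
    rw [h2, pow_succ, mul_comm] at h
    exact Int.dvd_of_mul_dvd_mul_left (by exact_mod_cast hp.ne') h

lemma psi_inj (p : ℕ) [Fact p.Prime] : ∀ (n : ℕ) (f f' : Fin n → ZMod p),
    ((p : ℤ) ^ n ∣ (psi p n f : ℤ) - psi p n f') → f = f' := by
  have hp : 0 < p := (Fact.out : p.Prime).pos
  intro n
  induction n with
  | zero => intro f f' _; exact Subsingleton.elim _ _
  | succ n ih =>
    intro f f' h
    simp only [psi] at h
    push_cast at h
    obtain ⟨h1, h2⟩ := digit_step p hp n _ _ _ _ h
    have h0 : f 0 = f' 0 := by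
      have h3 := (ZMod.intCast_zmod_eq_zero_iff_dvd _ p).mpr h1
      push_cast at h3
      simp only [ZMod.natCast_val, ZMod.cast_id', id_eq] at h3
      exact sub_eq_zero.mp h3
    have ht := ih _ _ (h2 (by rw [h0]))
    rw [← Fin.cons_self_tail f, ← Fin.cons_self_tail f', h0, ht]

/-- `φ` is triangular. -/
def Tri (p n : ℕ) (φ : (Fin n → ZMod p) → (Fin n → ZMod p)) : Prop :=
  ∀ (f f' : Fin n → ZMod p) (i : Fin n), (∀ j < i, f j = f' j) → φ f i - f i = φ f' i - f' i

lemma psi_sum_inj (p : ℕ) [Fact p.Prime] (hp2 : p ≠ 2) :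
    ∀ (n : ℕ) (φ : (Fin n → ZMod p) → (Fin n → ZMod p)) (_ : Tri p n φ)
      (f f' : Fin n → ZMod p),
    ((p : ℤ) ^ n ∣ ((psi p n f : ℤ) + psi p n (φ f)) - (psi p n f' + psi p n (φ f'))) →
    f = f' := by
  have hp : 0 < p := (Fact.out : p.Prime).pos
  intro n
  induction n with
  | zero => intro φ _ f f' _; exact Subsingleton.elim _ _
  | succ n ih =>
    intro φ hφ f f' h
    simp only [psi] at h
    push_cast at h
    have hh : (p : ℤ) ^ (n + 1) ∣
        ((((f 0).val : ℤ) + ((φ f 0).val : ℤ)) +
          p * ((psi p n (Fin.tail f) : ℤ) + psi p n (Fin.tail (φ f)))) -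
        ((((f' 0).val : ℤ) + ((φ f' 0).val : ℤ)) +
          p * ((psi p n (Fin.tail f') : ℤ) + psi p n (Fin.tail (φ f')))) := by
      have he : ((((f 0).val : ℤ) + ((φ f 0).val : ℤ)) +
          p * ((psi p n (Fin.tail f) : ℤ) + psi p n (Fin.tail (φ f)))) -
        ((((f' 0).val : ℤ) + ((φ f' 0).val : ℤ)) +
          p * ((psi p n (Fin.tail f') : ℤ) + psi p n (Fin.tail (φ f')))) =
          ((f 0).val : ℤ) + p * (psi p n (Fin.tail f)) +
          (((φ f 0).val : ℤ) + p * (psi p n (Fin.tail (φ f)))) -
          (((f' 0).val : ℤ) + p * (psi p n (Fin.tail f')) +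
          (((φ f' 0).val : ℤ) + p * (psi p n (Fin.tail (φ f'))))) := by ring
      rw [he]; exact h
    obtain ⟨h1, h2⟩ := digit_step p hp n _ _ _ _ hh
    have hc := hφ f f' 0 (fun j hj => absurd hj (Fin.not_lt_zero j))
    have h0 : f 0 = f' 0 := by
      have h3 := (ZMod.intCast_zmod_eq_zero_iff_dvd _ p).mpr h1
      push_cast at h3
      simp only [ZMod.natCast_val, ZMod.cast_id', id_eq] at h3
      have h4 : (2 : ZMod p) * (f 0 - f' 0) = 0 := by linear_combination h3 - hc
      have h5 : (2 : ZMod p) ≠ 0 := by
        intro h6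
        have h7 : ((2 : ℕ) : ZMod p) = 0 := by exact_mod_cast h6
        rw [ZMod.natCast_eq_zero_iff] at h7
        have := (Nat.prime_dvd_prime_iff_eq (Fact.out : p.Prime) Nat.prime_two).mp h7
        exact hp2 this
      exact sub_eq_zero.mp ((mul_eq_zero.mp h4).resolve_left h5)
    have h0' : φ f 0 = φ f' 0 := by
      rw [h0] at hc; exact sub_left_injective hc
    have h3 := h2 (by rw [h0, h0'])
    have hT : Tri p n (fun g => Fin.tail (φ (Fin.cons (f 0) g))) := by
      intro g g' i hj
      have := hφ (Fin.cons (f 0) g) (Fin.cons (f 0) g') i.succ (by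
        intro j hji
        refine Fin.cases ?_ (fun k hk => ?_) j hji
        · intro _; simp
        · simp only [Fin.cons_succ]
          exact hj k (Fin.succ_lt_succ_iff.mp hk))
      simpa [Fin.tail] using this
    have h4 := ih _ hT (Fin.tail f) (Fin.tail f') (by
      simp only [Fin.cons_self_tail]
      rw [show Fin.cons (f 0) (Fin.tail f') = f' by rw [h0, Fin.cons_self_tail]]
      exact h3)
    rw [← Fin.cons_self_tail f, ← Fin.cons_self_tail f', h0, h4]

lemma actV_tri {p n : ℕ} (t : Fin 4) (e : ZMod p) : Tri p n (actV t e) := by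
  intro f f' i h
  simp only [actV]
  have := ext_lower f f' i h (i.val / 4) (Nat.div_le_self _ _)
  rw [this]
  ring

/-- **The bulk permutations.** -/
theorem magnus (g : ℕ) : ∃ N : ℕ, Odd N ∧ ∃ π : Fin 4 → Equiv.Perm (ZMod N),
    (∀ t, Function.Bijective (fun v => v + π t v)) ∧
    ∀ (c : ℕ → ZMod N) (t : ℕ → Fin 4) (σ : ℕ → Bool) (l : ℕ), 0 < l → l < g →
      (∀ i < l, c (i + 1) = if σ i then π (t i) (c i) else (π (t i)).symm (c i)) →
      (∀ i, i + 1 < l → t (i + 1) = t i → σ (i + 1) = σ i) → c l ≠ c 0 := by
  obtain ⟨p, hpg, hp⟩ := Nat.exists_infinite_primes (g + 3)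
  have : Fact p.Prime := ⟨hp⟩
  have hp2 : p ≠ 2 := by omega
  set n := 5 ^ g with hn
  have : NeZero (p ^ n) := ⟨pow_ne_zero _ hp.ne_zero⟩
  have hcard : Fintype.card (Fin n → ZMod p) = Fintype.card (ZMod (p ^ n)) := by
    rw [Fintype.card_fun, ZMod.card, ZMod.card, Fintype.card_fin]
  have key : ∀ x y : ℤ, ((x : ZMod (p ^ n)) = (y : ZMod (p ^ n))) → (p : ℤ) ^ n ∣ x - y := by
    intro x y h
    have h1 : ((x - y : ℤ) : ZMod (p ^ n)) = 0 := by push_cast; rw [h, sub_self]
    have h2 := (ZMod.intCast_zmod_eq_zero_iff_dvd (x - y) (p ^ n)).mp h1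
    exact_mod_cast h2
  let E0 : (Fin n → ZMod p) → ZMod (p ^ n) := fun f => ((psi p n f : ℤ) : ZMod (p ^ n))
  have hE0 : Function.Bijective E0 := by
    rw [Fintype.bijective_iff_injective_and_card]
    refine ⟨fun f f' h => psi_inj p n f f' (key _ _ h), hcard⟩
  let E : (Fin n → ZMod p) ≃ ZMod (p ^ n) := Equiv.ofBijective E0 hE0
  let Φ : Fin 4 → Equiv.Perm (Fin n → ZMod p) := fun t =>
    ⟨actV t 1, actV t (-1), fun f => actV_neg t 1 f, fun f => by
      have := actV_neg t (-1 : ZMod p) f
      rwa [neg_neg] at this⟩
  refine ⟨p ^ n, (hp.odd_of_ne_two hp2).pow, fun t => (E.symm.trans (Φ t)).trans E, ?_, ?_⟩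
  · intro t
    have hinj : Function.Injective (fun f : Fin n → ZMod p => E f + E (Φ t f)) := by
      intro f f' h
      apply psi_sum_inj p hp2 n (actV t 1) (actV_tri t 1) f f'
      have h1 : (((psi p n f : ℤ) + psi p n (actV t 1 f) : ℤ) : ZMod (p ^ n)) =
          (((psi p n f' : ℤ) + psi p n (actV t 1 f') : ℤ) : ZMod (p ^ n)) := by
        have h2 : ((psi p n f : ℤ) : ZMod (p ^ n)) + ((psi p n (actV t 1 f) : ℤ) : ZMod (p ^ n)) =
            ((psi p n f' : ℤ) : ZMod (p ^ n)) + ((psi p n (actV t 1 f') : ℤ) : ZMod (p ^ n)) := h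
        push_cast at h2 ⊢
        exact h2
      exact key _ _ h1
    rw [Fintype.bijective_iff_injective_and_card]
    refine ⟨fun v w h => ?_, rfl⟩
    have h2 : E (E.symm v) + E (Φ t (E.symm v)) = E (E.symm w) + E (Φ t (E.symm w)) := by
      rw [Equiv.apply_symm_apply, Equiv.apply_symm_apply]
      exact h
    exact E.symm.injective (hinj h2)
  · intro c t σ l hl hlg hc hred hcl
    let d : ℕ → (Fin n → ZMod p) := fun i => E.symm (c i)
    have hd : ∀ i < l, d (i + 1) = actV (t i) (if σ i then 1 else -1) (d i) := by
      intro i hi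
      simp only [d]
      rw [hc i hi]
      cases σ i with
      | true => simp [Φ]
      | false => simp [Φ]
    let G : ℕ → List (Fin 4) → ZMod p := fun i =>
      Nat.rec (fun u => ext (d 0) (idx u))
        (fun i F => actL (t i) (if σ i then 1 else -1) F) i
    have hG : ∀ i, G (i + 1) = actL (t i) (if σ i then 1 else -1) (G i) := fun i => rfl
    have hGd : ∀ i ≤ l, ∀ u : List (Fin 4), idx u ≤ n → G i u = ext (d i) (idx u) := by
      intro i
      induction i with
      | zero => intro _ u _; rfl
      | succ i ih =>
        intro hi u hu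
        rw [hG, hd i (by omega), ext_actV _ _ _ _ hu]
        cases u with
        | nil => simp only [actL]; exact ih (by omega) [] hu
        | cons s w =>
          have hw : idx w ≤ n := by simp only [idx] at hu; omega
          simp only [actL]
          rw [ih (by omega) (s :: w) hu, ih (by omega) w hw]
    refine free_word t σ G hG l hl hred (by omega) rfl ?_
    intro v hv
    have hidx : idx v ≤ n := by
      have h1 := idx_lt v
      have h2 : 5 ^ v.length ≤ 5 ^ g := Nat.pow_le_pow_right (by norm_num) (by omega)
      omega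
    rw [hGd l le_rfl v hidx, hGd 0 (by omega) v hidx]
    have : d l = d 0 := by simp only [d]; rw [hcl]
    rw [this]

end Pool.Agent.MP_1b49f3_co
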