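import Mathlib
import Pool.Agent.MP_1b49f3_co.Defs
import Pool.Agent.MP_1b49f3_co.Magnus

set_option autoImplicit false

/-!
# The low structure
-/

namespace Pool.Agent.MP_1b49f3_co

/-- Parameters of the low structure. -/
structure Par where
  m : ℕ
  hm : 3 ≤ m
  N : ℕ
  hN : Odd N
  π : Fin 4 → Equiv.Perm (ZMod N)
  hb : ∀ t, Function.Bijective (fun v => v + π t v)
  hfree : ∀ (c : ℕ → ZMod N) (t : ℕ → Fin 4) (σ : ℕ → Bool) (l : ℕ), 0 < l → l < m + 1 →
      (∀ i < l, c (i + 1) = if σ i then π (t i) (c i) else (π (t i)).symm (c i)) →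
      (∀ i, i + 1 < l → t (i + 1) = t i → σ (i + 1) = σ i) → c l ≠ c 0

namespace Par

variable (P : Par)

/-- The pair `(a k, b k)`. -/
def ab (m : ℕ) : ℕ → ℤ × ℤ
  | 0 => (1, 2)
  | (k + 1) => ((ab m k).1 + (ab m k).2, if m ∣ (k + 1) then 2 else (ab m k).1)

/-- The token sequence. -/
def a (k : ℕ) : ℤ := (ab P.m k).1

/-- The other endpoint of the edge of sum `a (k+1)`. -/
def b (k : ℕ) : ℤ := (ab P.m k).2

/-- Index of the last vertex of the `j`-th cycle. -/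
def kz (j : ℕ) : ℕ := j * P.m + (P.m - 1)

/-- The spare tokens. -/
def z (j : ℕ) : ℤ := P.a (P.kz j) + 2

/-- The offset of the width of the cone. -/
def M : ℕ := 2 * P.N

/-- The number of cycles. -/
def J : ℕ := 2 * P.M + 3

/-- Half of the period. -/
def R : ℤ := P.a (P.J * P.m) + 4 * P.N

/-- The period. -/
def Q : ℤ := 2 * P.R + 1

/-- The start of the base band. -/
def T : ℤ := P.Q - (P.M + 1)

lemma a_zero : P.a 0 = 1 := rfl
lemma b_zero : P.b 0 = 2 := rfl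
lemma a_succ (k : ℕ) : P.a (k + 1) = P.a k + P.b k := rfl
lemma b_succ (k : ℕ) : P.b (k + 1) = if P.m ∣ (k + 1) then 2 else P.a k := rfl

lemma ab_pos (k : ℕ) : 1 ≤ P.a k ∧ 1 ≤ P.b k := by
  induction k with
  | zero => rw [a_zero, b_zero]; norm_num
  | succ k ih =>
    rw [a_succ, b_succ]
    refine ⟨by linarith, ?_⟩
    split_ifs
    · norm_num
    · exact ih.1

lemma a_strictMono : StrictMono P.a := by
  apply strictMono_nat_of_lt_succ
  intro k
  rw [a_succ]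
  have := (P.ab_pos k).2
  linarith

lemma a_ge (k : ℕ) : (k : ℤ) + 1 ≤ P.a k := by
  induction k with
  | zero => rw [a_zero]; norm_num
  | succ k ih =>
    rw [a_succ]
    have := (P.ab_pos k).2
    push_cast
    linarith

lemma a_ge_three {k : ℕ} (hk : 1 ≤ k) : 3 ≤ P.a k := by
  have h1 : P.a 1 = 3 := by rw [show 1 = 0 + 1 from rfl, a_succ, a_zero, b_zero]; norm_num
  have := P.a_strictMono.monotone hk
  linarith

lemma a_ne_two (k : ℕ) : P.a k ≠ 2 := by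
  rcases Nat.eq_zero_or_pos k with h | h
  · subst h; rw [a_zero]; norm_num
  · have := P.a_ge_three h
    omega

lemma kz_ge (j : ℕ) : 2 ≤ P.kz j := by
  have := P.hm
  unfold kz
  have h : 0 ≤ j * P.m := Nat.zero_le _
  omega

lemma not_dvd_kz (j : ℕ) : ¬ P.m ∣ P.kz j := by
  intro h
  have hm := P.hm
  unfold kz at h
  have h2 : P.m ∣ (P.m - 1) := (Nat.dvd_add_right (Dvd.intro_left j rfl)).mp h
  have := Nat.le_of_dvd (by omega) h2
  omega

lemma z_lt (j : ℕ) : P.a (P.kz j) < P.z j ∧ P.z j < P.a (P.kz j + 1) := by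
  constructor
  · unfold z; linarith
  · unfold z
    rw [a_succ]
    obtain ⟨k, hk⟩ : ∃ k, P.kz j = k + 1 := ⟨P.kz j - 1, by have := P.kz_ge j; omega⟩
    have hnd := P.not_dvd_kz j
    rw [hk] at hnd ⊢
    rw [b_succ, if_neg hnd]
    have := P.kz_ge j
    have := P.a_ge_three (show 1 ≤ k by omega)
    linarith

lemma z_ne_a (j k : ℕ) : P.z j ≠ P.a k := by
  intro h
  obtain ⟨h1, h2⟩ := P.z_lt j
  rw [h] at h1 h2
  have h3 := P.a_strictMono.lt_iff_lt.mp h1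
  have h4 := P.a_strictMono.lt_iff_lt.mp h2
  omega

lemma kz_strictMono : StrictMono P.kz := by
  apply strictMono_nat_of_lt_succ
  intro j
  unfold kz
  have := P.hm
  rw [Nat.succ_mul]
  omega

lemma z_inj {i j : ℕ} (h : P.z i = P.z j) : i = j := by
  unfold z at h
  have h1 : P.a (P.kz i) = P.a (P.kz j) := by linarith
  exact P.kz_strictMono.injective (P.a_strictMono.injective h1)

lemma z_ge (j : ℕ) : 6 ≤ P.z j := by
  unfold z
  have h1 := P.a_ge_three (show 1 ≤ P.kz j - 1 by have := P.kz_ge j; omega)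
  have h2 := P.a_strictMono (show P.kz j - 1 < P.kz j by have := P.kz_ge j; omega)
  linarith

lemma lt_z (j : ℕ) : (j : ℤ) < P.z j := by
  unfold z
  have h1 := P.a_ge (P.kz j)
  have h2 : j ≤ P.kz j := by
    unfold kz
    have := P.hm
    have : j * 1 ≤ j * P.m := Nat.mul_le_mul_left j (by omega)
    omega
  have h3 : (j : ℤ) ≤ P.kz j := by exact_mod_cast h2
  linarith

/-- Upper bound for the initial elements. -/
lemma a_le {k : ℕ} (hk : k ≤ P.J * P.m) : P.a k ≤ P.a (P.J * P.m) :=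
  P.a_strictMono.monotone hk

lemma kz_lt {j : ℕ} (hj : j < P.J) : P.kz j + 1 ≤ P.J * P.m := by
  unfold kz
  have := P.hm
  have h1 : (j + 1) * P.m ≤ P.J * P.m := Nat.mul_le_mul_right _ hj
  rw [Nat.succ_mul] at h1
  omega

lemma z_lt_max {j : ℕ} (hj : j < P.J) : P.z j < P.a (P.J * P.m) :=
  lt_of_lt_of_le (P.z_lt j).2 (P.a_le (P.kz_lt hj))

lemma N_pos : 1 ≤ P.N := P.hN.pos

lemma R_pos : 1 ≤ P.R := by
  unfold R
  have := (P.ab_pos (P.J * P.m)).1
  have := P.N_pos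
  omega

lemma T_eq : P.T = 2 * P.R - 2 * P.N := by
  unfold T Q M
  push_cast
  ring

lemma max_lt_T : 2 * P.a (P.J * P.m) < P.T := by
  rw [T_eq]
  unfold R
  have := P.N_pos
  have := (P.ab_pos (P.J * P.m)).1
  omega

/-! ### Coordinates -/

/-- Second coordinate. -/
def Y (s : ℤ) : ℤ := (s + P.R) / P.Q

/-- First coordinate. -/
def X (s : ℤ) : ℤ := (s + P.R) % P.Q - P.R

lemma XY (s : ℤ) : s = P.X s + P.Q * P.Y s := by
  unfold X Y
  have := Int.emod_add_mul_ediv (s + P.R) P.Q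
  linarith

lemma X_bound (s : ℤ) : -P.R ≤ P.X s ∧ P.X s ≤ P.R := by
  unfold X
  have hQ : 0 < P.Q := by unfold Q; have := P.R_pos; omega
  have h1 := Int.emod_nonneg (s + P.R) hQ.ne'
  have h2 := Int.emod_lt_of_pos (s + P.R) hQ
  unfold Q at h2 ⊢
  unfold Q at h1
  constructor <;> omega

lemma XY_unique {x y : ℤ} (h1 : -P.R ≤ x) (h2 : x ≤ P.R) :
    P.X (x + P.Q * y) = x ∧ P.Y (x + P.Q * y) = y := by
  have hQ : 0 < P.Q := by unfold Q; have := P.R_pos; omega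
  have e : x + P.Q * y + P.R = (x + P.R) + P.Q * y := by ring
  unfold X Y
  rw [e, Int.add_mul_emod_self_left, Int.add_mul_ediv_left _ _ hQ.ne',
    Int.emod_eq_of_lt (by linarith) (by unfold Q; linarith),
    Int.ediv_eq_zero_of_lt (by linarith) (by unfold Q; linarith)]
  constructor <;> ring

/-- The cone. -/
def CA (v : ℤ) : Prop := 1 ≤ P.Y v ∧ |P.X v| ≤ P.Y v + P.M

/-- The bulk sums. -/
def Bulk (s : ℤ) : Prop := 2 ≤ P.Y s ∧ |P.X s| ≤ P.Y s + P.M

lemma not_CA_of_lt {v : ℤ} (h : v < P.T) : ¬ P.CA v := by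
  rintro ⟨h1, h2⟩
  have h3 := P.XY v
  have hR := P.R_pos
  rw [T_eq] at h
  have hX := P.X_bound v
  rcases eq_or_lt_of_le h1 with h4 | h4
  · rw [← h4] at h2 h3
    have h5 := (abs_le.mp h2).1
    have h6 : (P.M : ℤ) = 2 * P.N := by unfold M; push_cast; ring
    rw [h6] at h5
    unfold Q at h3
    linarith
  · have h5 : P.Q * 2 ≤ P.Q * P.Y v := by
      apply mul_le_mul_of_nonneg_left (by linarith)
      unfold Q; linarith
    have : 0 ≤ (P.N : ℤ) := by positivity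
    unfold Q at h5 h3
    linarith

/-- Type of a sum. -/
def tp (x y : ℤ) : Fin 4 :=
  if x % 2 = 0 then (if y % 2 = 0 then 0 else 2) else (if y % 2 = 0 then 1 else 3)

lemma tp_inj {x y x' y' : ℤ} (h : tp x y = tp x' y') : x % 2 = x' % 2 ∧ y % 2 = y' % 2 := by
  unfold tp at h
  split_ifs at h <;> first | (exfalso; revert h; decide) | (constructor <;> omega)

/-- The type of the sum `s`. -/
def ty (s : ℤ) : Fin 4 := tp (P.X s) (P.Y s)

/-- Colour of the first endpoint of the edge of bulk sum `s`. -/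
noncomputable def cl (s : ℤ) : ZMod P.N :=
  (Equiv.ofBijective _ (P.hb (P.ty s))).symm ((P.X s : ℤ) : ZMod P.N)

lemma cl_spec (s : ℤ) : P.cl s + P.π (P.ty s) (P.cl s) = ((P.X s : ℤ) : ZMod P.N) :=
  (Equiv.ofBijective _ (P.hb (P.ty s))).apply_symm_apply ((P.X s : ℤ) : ZMod P.N)

/-- First coordinate of the first endpoint. -/
noncomputable def x1 (s : ℤ) : ℤ := P.X s / 2 + (((P.cl s).val : ℤ) - P.X s / 2) % P.N

/-- First endpoint. -/
noncomputable def Lb (s : ℤ) : ℤ := P.x1 s + P.Q * (P.Y s / 2)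

lemma x1_bound (s : ℤ) : P.X s / 2 ≤ P.x1 s ∧ P.x1 s < P.X s / 2 + P.N := by
  have hN : (0 : ℤ) < P.N := by have := P.N_pos; omega
  unfold x1
  have h1 := Int.emod_nonneg (((P.cl s).val : ℤ) - P.X s / 2) hN.ne'
  have h2 := Int.emod_lt_of_pos (((P.cl s).val : ℤ) - P.X s / 2) hN
  constructor <;> linarith

lemma x1_cast (s : ℤ) : ((P.x1 s : ℤ) : ZMod P.N) = P.cl s := by
  have hN : NeZero P.N := ⟨by have := P.N_pos; omega⟩
  unfold x1
  push_cast
  rw [ZMod.natCast_val, ZMod.cast_id', id_eq]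
  ring

lemma x2_cast (s : ℤ) : ((P.X s - P.x1 s : ℤ) : ZMod P.N) = P.π (P.ty s) (P.cl s) := by
  push_cast
  rw [x1_cast, ← P.cl_spec s]
  ring

lemma bulk_facts {s : ℤ} (h : P.Bulk s) :
    (P.X (P.Lb s) = P.x1 s ∧ P.Y (P.Lb s) = P.Y s / 2 ∧ P.CA (P.Lb s)) ∧
    (P.X (s - P.Lb s) = P.X s - P.x1 s ∧ P.Y (s - P.Lb s) = P.Y s - P.Y s / 2 ∧
      P.CA (s - P.Lb s)) := by
  obtain ⟨hY, hX⟩ := h
  obtain ⟨h1, h2⟩ := P.x1_bound s
  obtain ⟨h3, h4⟩ := P.X_bound s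
  obtain ⟨h5, h6⟩ := abs_le.mp hX
  have hM : (P.M : ℤ) = 2 * P.N := by unfold M; push_cast; ring
  have hN := P.N_pos
  have hR : 4 * (P.N : ℤ) < P.R := by
    unfold R; have := (P.ab_pos (P.J * P.m)).1; omega
  have e : s - P.Lb s = (P.X s - P.x1 s) + P.Q * (P.Y s - P.Y s / 2) := by
    have := P.XY s
    unfold Lb
    linear_combination this
  have u1 := P.XY_unique (x := P.x1 s) (y := P.Y s / 2) (by omega) (by omega)
  have u2 := P.XY_unique (x := P.X s - P.x1 s) (y := P.Y s - P.Y s / 2) (by omega) (by omega)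
  rw [e]
  refine ⟨⟨u1.1, u1.2, ?_⟩, ⟨u2.1, u2.2, ?_⟩⟩
  · unfold CA Lb
    rw [u1.1, u1.2, abs_le]
    rw [hM] at h5 h6 ⊢
    refine ⟨by omega, by omega, by omega⟩
  · unfold CA
    rw [u2.1, u2.2, abs_le]
    rw [hM] at h5 h6 ⊢
    refine ⟨by omega, by omega, by omega⟩

/-- Same parity, close and congruent modulo the odd `N`: equal. -/
lemma eq_of_parity {N : ℕ} (hN : Odd N) {x x' : ℤ} (h2 : x % 2 = x' % 2)
    (hc : ((x : ℤ) : ZMod N) = ((x' : ℤ) : ZMod N)) (hlt : |x - x'| < 2 * N) : x = x' := by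
  have h1 : (N : ℤ) ∣ x - x' := by
    rw [← ZMod.intCast_zmod_eq_zero_iff_dvd]
    push_cast
    rw [hc, sub_self]
  have h3 : (2 : ℤ) ∣ x - x' := by omega
  have hcop : IsCoprime (2 : ℤ) (N : ℤ) := by
    rw [Int.isCoprime_iff_gcd_eq_one]
    have : Nat.Coprime 2 N := (Nat.coprime_two_left).mpr hN
    simpa [Int.gcd] using this
  have h4 := hcop.mul_dvd h3 h1
  have h5 := Int.eq_zero_of_abs_lt_dvd h4 (by simpa using hlt)
  linarith

lemma Lb_inj {s s' : ℤ} (h : P.Bulk s) (h' : P.Bulk s') (ht : P.ty s = P.ty s')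
    (he : P.Lb s = P.Lb s') : s = s' := by
  obtain ⟨⟨f1, f2, -⟩, -⟩ := P.bulk_facts h
  obtain ⟨⟨f1', f2', -⟩, -⟩ := P.bulk_facts h'
  rw [he] at f1 f2
  have ex : P.x1 s = P.x1 s' := f1.symm.trans f1'
  have ey : P.Y s / 2 = P.Y s' / 2 := f2.symm.trans f2'
  obtain ⟨p1, p2⟩ := tp_inj ht
  have hy : P.Y s = P.Y s' := by omega
  have ecl : P.cl s = P.cl s' := by rw [← x1_cast, ← x1_cast, ex]
  have ec : ((P.X s : ℤ) : ZMod P.N) = ((P.X s' : ℤ) : ZMod P.N) := by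
    rw [← cl_spec, ← cl_spec, ecl, ht]
  obtain ⟨b1, b2⟩ := P.x1_bound s
  obtain ⟨b3, b4⟩ := P.x1_bound s'
  have hx : P.X s = P.X s' := by
    apply eq_of_parity P.hN p1 ec
    rw [abs_lt]
    constructor <;> omega
  rw [P.XY s, P.XY s', hx, hy]

lemma Lb_inj' {s s' : ℤ} (h : P.Bulk s) (h' : P.Bulk s') (ht : P.ty s = P.ty s')
    (he : s - P.Lb s = s' - P.Lb s') : s = s' := by
  obtain ⟨-, ⟨f1, f2, -⟩⟩ := P.bulk_facts h
  obtain ⟨-, ⟨f1', f2', -⟩⟩ := P.bulk_facts h'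
  rw [he] at f1 f2
  have ex : P.X s - P.x1 s = P.X s' - P.x1 s' := f1.symm.trans f1'
  have ey : P.Y s - P.Y s / 2 = P.Y s' - P.Y s' / 2 := f2.symm.trans f2'
  obtain ⟨p1, p2⟩ := tp_inj ht
  have hy : P.Y s = P.Y s' := by omega
  have ecl : P.cl s = P.cl s' := by
    apply (P.π (P.ty s)).injective
    rw [← x2_cast, ex, x2_cast, ht]
  have ec : ((P.X s : ℤ) : ZMod P.N) = ((P.X s' : ℤ) : ZMod P.N) := by
    rw [← cl_spec, ← cl_spec, ecl, ht]
  obtain ⟨b1, b2⟩ := P.x1_bound s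
  obtain ⟨b3, b4⟩ := P.x1_bound s'
  have hx : P.X s = P.X s' := by
    apply eq_of_parity P.hN p1 ec
    rw [abs_lt]
    constructor <;> omega
  rw [P.XY s, P.XY s', hx, hy]

/-! ### The function `L` -/

open Classical in
/-- One endpoint of the edge of sum `s`. -/
noncomputable def L (s : ℤ) : ℤ :=
  if h1 : ∃ k, k < P.J * P.m ∧ s = P.a (k + 1) then P.a h1.choose
  else if h2 : ∃ j, j < P.J ∧ s = P.z j then P.a (P.kz h2.choose)
  else if h3 : ∃ j : ℕ, j < P.J ∧ s = P.T + j then P.z h3.choose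
  else if P.Bulk s then P.Lb s
  else 0

lemma L_a {k : ℕ} (hk : k < P.J * P.m) : P.L (P.a (k + 1)) = P.a k := by
  have h1 : ∃ k', k' < P.J * P.m ∧ P.a (k + 1) = P.a (k' + 1) := ⟨k, hk, rfl⟩
  unfold L
  rw [dif_pos h1]
  have := P.a_strictMono.injective h1.choose_spec.2
  congr 1
  omega

lemma L_z {j : ℕ} (hj : j < P.J) : P.L (P.z j) = P.a (P.kz j) := by
  have h1 : ¬ ∃ k', k' < P.J * P.m ∧ P.z j = P.a (k' + 1) := by
    rintro ⟨k, -, h⟩
    exact P.z_ne_a _ _ h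
  have h2 : ∃ j', j' < P.J ∧ P.z j = P.z j' := ⟨j, hj, rfl⟩
  unfold L
  rw [dif_neg h1, dif_pos h2]
  have := P.z_inj h2.choose_spec.2
  rw [← this]

/-- Not in the set `A`: these sums are served by the hub `0`. -/
def NA (s : ℤ) : Prop :=
  2 ≤ s ∧ ¬ P.CA s ∧ (∀ k ≤ P.J * P.m, s ≠ P.a k) ∧ (∀ j < P.J, s ≠ P.z j)

lemma L_cases {s : ℤ} (hs : 2 ≤ s) :
    (∃ k, k < P.J * P.m ∧ s = P.a (k + 1) ∧ P.L s = P.a k) ∨
    (∃ j, j < P.J ∧ s = P.z j ∧ P.L s = P.a (P.kz j)) ∨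
    (∃ j : ℕ, j < P.J ∧ s = P.T + j ∧ P.L s = P.z j) ∨
    (P.Bulk s ∧ P.L s = P.Lb s) ∨
    (P.L s = 0 ∧ P.NA s) := by
  by_cases h1 : ∃ k, k < P.J * P.m ∧ s = P.a (k + 1)
  · obtain ⟨k, hk, rfl⟩ := h1
    exact Or.inl ⟨k, hk, rfl, P.L_a hk⟩
  by_cases h2 : ∃ j, j < P.J ∧ s = P.z j
  · obtain ⟨j, hj, rfl⟩ := h2
    exact Or.inr (Or.inl ⟨j, hj, rfl, P.L_z hj⟩)
  by_cases h3 : ∃ j : ℕ, j < P.J ∧ s = P.T + j
  · refine Or.inr (Or.inr (Or.inl ⟨h3.choose, h3.choose_spec.1, h3.choose_spec.2, ?_⟩))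
    unfold L
    rw [dif_neg h1, dif_neg h2, dif_pos h3]
  by_cases h4 : P.Bulk s
  · refine Or.inr (Or.inr (Or.inr (Or.inl ⟨h4, ?_⟩)))
    unfold L
    rw [dif_neg h1, dif_neg h2, dif_neg h3, if_pos h4]
  · refine Or.inr (Or.inr (Or.inr (Or.inr ⟨?_, hs, ?_, ?_, ?_⟩)))
    · unfold L
      rw [dif_neg h1, dif_neg h2, dif_neg h3, if_neg h4]
    · rintro ⟨hY, hX⟩
      rcases eq_or_lt_of_le hY with h5 | h5
      · apply h3
        rw [← h5] at hX
        obtain ⟨h6, h7⟩ := abs_le.mp hX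
        refine ⟨(P.X s + P.M + 1).toNat, ?_, ?_⟩
        · unfold J; omega
        · have h8 := P.XY s
          rw [← h5] at h8
          rw [Int.toNat_of_nonneg (by omega)]
          unfold T
          linarith
      · exact h4 ⟨by omega, hX⟩
    · intro k hk h
      cases k with
      | zero => rw [a_zero] at h; omega
      | succ k => exact h1 ⟨k, by omega, h⟩
    · intro j hj h
      exact h2 ⟨j, hj, h⟩

lemma b_lt_T {k : ℕ} (hk : k < P.J * P.m) : P.b k < P.T := by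
  have h1 := P.max_lt_T
  have h2 := P.a_le (show k ≤ P.J * P.m by omega)
  have h3 := (P.ab_pos (P.J * P.m)).1
  have h5 : 3 ≤ P.a (P.J * P.m) := P.a_ge_three (by omega)
  cases k with
  | zero => rw [b_zero]; linarith
  | succ k =>
    rw [b_succ]
    split_ifs
    · linarith
    · have := P.a_le (show k ≤ P.J * P.m by omega)
      linarith

/-- Classification of the edges. -/
lemma edge_cases {u v : ℤ} (h : Rel P.L u v) :
    (∃ k, k < P.J * P.m ∧ ((u = P.a k ∧ v = P.b k) ∨ (u = P.b k ∧ v = P.a k))) ∨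
    (∃ j, j < P.J ∧ ((u = P.a (P.kz j) ∧ v = 2) ∨ (u = 2 ∧ v = P.a (P.kz j)))) ∨
    (∃ j : ℕ, j < P.J ∧ ((u = P.z j ∧ v = P.T + j - P.z j) ∨
      (u = P.T + j - P.z j ∧ v = P.z j))) ∨
    (P.Bulk (u + v) ∧ P.L (u + v) = P.Lb (u + v) ∧ P.CA u ∧ P.CA v) ∨
    ((u = 0 ∧ P.NA v) ∨ (v = 0 ∧ P.NA u)) := by
  obtain ⟨hs, hL⟩ := h
  rcases P.L_cases hs with ⟨k, hk, h1, h2⟩ | ⟨j, hj, h1, h2⟩ | ⟨j, hj, h1, h2⟩ | ⟨h1, h2⟩ |
    ⟨h1, h2⟩
  · left
    refine ⟨k, hk, ?_⟩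
    rw [a_succ] at h1
    rcases hL with h3 | h3
    · left; constructor <;> linarith
    · right; constructor <;> linarith
  · right; left
    refine ⟨j, hj, ?_⟩
    unfold z at h1
    rcases hL with h3 | h3
    · left; constructor <;> linarith
    · right; constructor <;> linarith
  · right; right; left
    refine ⟨j, hj, ?_⟩
    rcases hL with h3 | h3
    · left; constructor <;> linarith
    · right; constructor <;> linarith
  · right; right; right; left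
    refine ⟨h1, h2, ?_⟩
    obtain ⟨⟨-, -, f1⟩, ⟨-, -, f2⟩⟩ := P.bulk_facts h1
    rw [h2] at hL
    rcases hL with h3 | h3
    · rw [h3] at f1 f2
      rw [show u + v - u = v by ring] at f2
      exact ⟨f1, f2⟩
    · rw [h3] at f1 f2
      rw [show u + v - v = u by ring] at f2
      exact ⟨f2, f1⟩
  · right; right; right; right
    rw [h1] at hL
    rcases hL with h3 | h3
    · left
      rw [← h3, zero_add] at h2
      exact ⟨h3.symm, h2⟩
    · right
      rw [← h3, add_zero] at h2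
      exact ⟨h3.symm, h2⟩

lemma CA_iff {u v : ℤ} (h : Rel P.L u v) : P.CA u ↔ P.CA v := by
  have hmax := P.max_lt_T
  have hpos := (P.ab_pos (P.J * P.m)).1
  rcases P.edge_cases h with ⟨k, hk, h1⟩ | ⟨j, hj, h1⟩ | ⟨j, hj, h1⟩ | ⟨h1, h2, h3, h4⟩ | h1
  · have e1 : ¬ P.CA (P.a k) := P.not_CA_of_lt (by
      have := P.a_le (show k ≤ P.J * P.m by omega); linarith)
    have e2 : ¬ P.CA (P.b k) := P.not_CA_of_lt (P.b_lt_T hk)
    rcases h1 with ⟨rfl, rfl⟩ | ⟨rfl, rfl⟩ <;> tauto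
  · have hk := P.kz_lt hj
    have e1 : ¬ P.CA (P.a (P.kz j)) := P.not_CA_of_lt (by
      have := P.a_le (show P.kz j ≤ P.J * P.m by omega); linarith)
    have e2 : ¬ P.CA 2 := P.not_CA_of_lt (by
      have h5 : 3 ≤ P.a (P.J * P.m) := P.a_ge_three (by omega)
      linarith)
    rcases h1 with ⟨rfl, rfl⟩ | ⟨rfl, rfl⟩ <;> tauto
  · have hz := P.z_lt_max hj
    have e1 : ¬ P.CA (P.z j) := P.not_CA_of_lt (by linarith)
    have e2 : ¬ P.CA (P.T + j - P.z j) := P.not_CA_of_lt (by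
      have := P.lt_z j; linarith)
    rcases h1 with ⟨rfl, rfl⟩ | ⟨rfl, rfl⟩ <;> tauto
  · tauto
  · have e1 : ¬ P.CA 0 := P.not_CA_of_lt (by linarith)
    rcases h1 with ⟨rfl, h2⟩ | ⟨rfl, h2⟩
    · have := h2.2.1; tauto
    · have := h2.2.1; tauto

lemma bulk_of_CA {u v : ℤ} (h : Rel P.L u v) (hu : P.CA u) :
    P.Bulk (u + v) ∧ (P.Lb (u + v) = u ∨ P.Lb (u + v) = v) := by
  have hv := (P.CA_iff h).mp hu
  have hmax := P.max_lt_T
  have hpos := (P.ab_pos (P.J * P.m)).1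
  rcases P.edge_cases h with ⟨k, hk, h1⟩ | ⟨j, hj, h1⟩ | ⟨j, hj, h1⟩ | ⟨h1, h2, h3, h4⟩ | h1
  · exfalso
    have e1 : ¬ P.CA (P.a k) := P.not_CA_of_lt (by
      have := P.a_le (show k ≤ P.J * P.m by omega); linarith)
    rcases h1 with ⟨rfl, rfl⟩ | ⟨rfl, rfl⟩ <;> tauto
  · exfalso
    have hk := P.kz_lt hj
    have e1 : ¬ P.CA (P.a (P.kz j)) := P.not_CA_of_lt (by
      have := P.a_le (show P.kz j ≤ P.J * P.m by omega); linarith)
    rcases h1 with ⟨rfl, rfl⟩ | ⟨rfl, rfl⟩ <;> tauto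
  · exfalso
    have hz := P.z_lt_max hj
    have e1 : ¬ P.CA (P.z j) := P.not_CA_of_lt (by linarith)
    rcases h1 with ⟨rfl, rfl⟩ | ⟨rfl, rfl⟩ <;> tauto
  · refine ⟨h1, ?_⟩
    rw [← h2]
    exact h.2
  · exfalso
    have e1 : ¬ P.CA 0 := P.not_CA_of_lt (by linarith)
    rcases h1 with ⟨rfl, h2⟩ | ⟨rfl, h2⟩
    · tauto
    · tauto

/-! ### The bulk part has no short closed walk -/

lemma Lb_ne {s : ℤ} (h : P.Bulk s) : P.Lb s ≠ s - P.Lb s := by
  intro he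
  obtain ⟨⟨f1, f2, -⟩, ⟨f3, f4, -⟩⟩ := P.bulk_facts h
  rw [← he] at f3
  have h1 : P.x1 s = P.X s - P.x1 s := f1.symm.trans f3
  have h2 := P.x2_cast s
  rw [← h1, x1_cast] at h2
  have h3 := P.hfree (fun _ => P.cl s) (fun _ => P.ty s) (fun _ => true) 1 (by norm_num)
    (by have := P.hm; omega) (by
      intro i _
      simpa using h2) (by intro i hi; omega)
  exact h3 rfl

open Classical in
lemma bulk_girth (l : ℕ) (hl : 0 < l) (hlm : l < P.m + 1) (c : ℕ → ℤ)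
    (hc : ∀ i, Rel P.L (c i) (c (i + 1))) (hper : ∀ i, c (i + l) = c i)
    (hnb : ∀ i, c (i + 2) ≠ c i) (hCA : ∀ i, P.CA (c i)) : False := by
  let S : ℕ → ℤ := fun i => c i + c (i + 1)
  have hS : ∀ i, P.Bulk (S i) ∧ (P.Lb (S i) = c i ∨ P.Lb (S i) = c (i + 1)) :=
    fun i => P.bulk_of_CA (hc i) (hCA i)
  let col : ℕ → ZMod P.N := fun i => ((P.X (c i) : ℤ) : ZMod P.N)
  let t : ℕ → Fin 4 := fun i => P.ty (S i)
  let σ : ℕ → Bool := fun i => decide (P.Lb (S i) = c i)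
  have hfirst : ∀ i, P.Lb (S i) = c i → S i - P.Lb (S i) = c (i + 1) := by
    intro i h; rw [h]; simp only [S]; ring
  have hsecond : ∀ i, P.Lb (S i) = c (i + 1) → S i - P.Lb (S i) = c i := by
    intro i h; rw [h]; simp only [S]; ring
  have key : ∀ i, (σ i = true ∧ P.Lb (S i) = c i ∧ S i - P.Lb (S i) = c (i + 1)) ∨
      (σ i = false ∧ P.Lb (S i) = c (i + 1) ∧ S i - P.Lb (S i) = c i) := by
    intro i
    by_cases h : P.Lb (S i) = c i
    · left
      exact ⟨by simp only [σ]; exact decide_eq_true h, h, hfirst i h⟩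
    · right
      have h2 := (hS i).2.resolve_left h
      exact ⟨by simp only [σ]; exact decide_eq_false h, h2, hsecond i h2⟩
  have hcol1 : ∀ i, ((P.X (P.Lb (S i)) : ℤ) : ZMod P.N) = P.cl (S i) := by
    intro i
    rw [(P.bulk_facts (hS i).1).1.1, x1_cast]
  have hcol2 : ∀ i, ((P.X (S i - P.Lb (S i)) : ℤ) : ZMod P.N) =
      P.π (P.ty (S i)) (P.cl (S i)) := by
    intro i
    rw [(P.bulk_facts (hS i).1).2.1, x2_cast]
  refine P.hfree col t σ l hl hlm ?_ ?_ ?_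
  · intro i _
    have e1 := hcol1 i
    have e2 := hcol2 i
    rcases key i with ⟨h1, h2, h3⟩ | ⟨h1, h2, h3⟩
    · rw [h2] at e1
      rw [h3] at e2
      simp only [h1, if_true, col, t]
      rw [e2, e1]
    · rw [h2] at e1
      rw [h3] at e2
      simp only [h1, col, t]
      rw [e2, e1]
      simp
  · intro i _ ht
    by_contra hne
    apply hnb i
    rcases key i with ⟨h1, h2, h3⟩ | ⟨h1, h2, h3⟩ <;>
      rcases key (i + 1) with ⟨h4, h5, h6⟩ | ⟨h4, h5, h6⟩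
    · exact absurd (h4.trans h1.symm) hne
    · have hs : S (i + 1) = S i := by
        apply P.Lb_inj' (hS (i + 1)).1 (hS i).1 ht
        rw [h6, h3]
      simp only [S] at hs
      rw [show i + 2 = i + 1 + 1 from rfl]
      linarith
    · have hs : S (i + 1) = S i := by
        apply P.Lb_inj (hS (i + 1)).1 (hS i).1 ht
        rw [h5, h2]
      simp only [S] at hs
      rw [show i + 2 = i + 1 + 1 from rfl]
      linarith
    · exact absurd (h4.trans h1.symm) hne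
  · have := hper 0
    rw [zero_add] at this
    simp only [col, this]

end Par

end Pool.Agent.MP_1b49f3_co
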