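import Mathlib
import Pool.Agent.MP_1b49f3_co.Low

set_option autoImplicit false

/-!
# The low structure, hub part
-/

namespace Pool.Agent.MP_1b49f3_co

namespace Par

variable (P : Par)

lemma Rel.symm' {L : ℤ → ℤ} {u v : ℤ} (h : Rel L u v) : Rel L v u := by
  obtain ⟨h1, h2⟩ := h
  rw [add_comm] at h1 h2
  exact ⟨h1, h2.symm⟩

/-- The only neighbour of `z j`. -/
lemma nbr_z {j : ℕ} (hj : j < P.J) {w : ℤ} (h : Rel P.L (P.z j) w) :
    w = P.T + j - P.z j := by
  have hmax := P.max_lt_T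
  have hpos := (P.ab_pos (P.J * P.m)).1
  have hz := P.z_lt_max hj
  have hz6 := P.z_ge j
  rcases P.edge_cases h with ⟨k, hk, h1⟩ | ⟨j', hj', h1⟩ | ⟨j', hj', h1⟩ | ⟨h1, h2, h3, h4⟩ | h1
  · exfalso
    rcases h1 with ⟨h1, -⟩ | ⟨h1, -⟩
    · exact P.z_ne_a _ _ h1
    · cases k with
      | zero => rw [b_zero] at h1; linarith
      | succ k =>
        rw [b_succ] at h1
        split_ifs at h1
        · linarith
        · exact P.z_ne_a _ _ h1
  · exfalso
    rcases h1 with ⟨h1, -⟩ | ⟨h1, -⟩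
    · exact P.z_ne_a _ _ h1
    · linarith
  · rcases h1 with ⟨h1, h2⟩ | ⟨h1, h2⟩
    · rw [← P.z_inj h1] at h2
      exact h2
    · exfalso
      have hz' := P.z_lt_max hj'
      have : (0 : ℤ) ≤ (j' : ℤ) := by positivity
      linarith
  · exfalso
    exact P.not_CA_of_lt (by linarith) h3
  · exfalso
    rcases h1 with ⟨h1, -⟩ | ⟨-, h1⟩
    · linarith
    · exact h1.2.2.2 j hj rfl

/-- Edges not touching the cone or the spare tokens. -/
lemma edge_cases' {u v : ℤ} (h : Rel P.L u v) (hu : ¬ P.CA u) (hzu : ∀ j < P.J, u ≠ P.z j)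
    (hzv : ∀ j < P.J, v ≠ P.z j) :
    (∃ k, k < P.J * P.m ∧ ((u = P.a k ∧ v = P.b k) ∨ (u = P.b k ∧ v = P.a k))) ∨
    (∃ j, j < P.J ∧ ((u = P.a (P.kz j) ∧ v = 2) ∨ (u = 2 ∧ v = P.a (P.kz j)))) ∨
    ((u = 0 ∧ P.NA v) ∨ (v = 0 ∧ P.NA u)) := by
  rcases P.edge_cases h with h1 | h1 | ⟨j, hj, h1⟩ | h1 | h1
  · exact Or.inl h1
  · exact Or.inr (Or.inl h1)
  · exfalso
    rcases h1 with ⟨h1, h2⟩ | ⟨h1, h2⟩
    · exact hzu j hj h1
    · exact hzv j hj h2
  · exact absurd h1.2.2.1 hu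
  · exact Or.inr (Or.inr h1)

lemma b_eq_a {k k' : ℕ} (h : P.b k = P.a k') : k = k' + 1 ∧ ¬ P.m ∣ k := by
  cases k with
  | zero => rw [b_zero] at h; exact absurd h.symm (P.a_ne_two k')
  | succ k =>
    rw [b_succ] at h
    split_ifs at h with hd
    · exact absurd h.symm (P.a_ne_two k')
    · rw [P.a_strictMono.injective h]
      exact ⟨rfl, by rw [← P.a_strictMono.injective h]; exact hd⟩

lemma b_lt_a {k : ℕ} (hk : 1 ≤ k) : P.b k < P.a k := by
  obtain ⟨k, rfl⟩ : ∃ k', k = k' + 1 := ⟨k - 1, by omega⟩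
  rw [b_succ]
  split_ifs
  · have := P.a_ge_three hk; linarith
  · exact P.a_strictMono (by omega)

/-- Neighbours of `a k`. -/
lemma nbr_a {k : ℕ} (hk : k ≤ P.J * P.m) {w : ℤ} (h : Rel P.L (P.a k) w)
    (hzw : ∀ j < P.J, w ≠ P.z j) :
    w = P.b k ∨ w = P.a (k + 1) ∨ (w = 2 ∧ ∃ j, k = P.kz j) := by
  have hmax := P.max_lt_T
  have hpos := (P.ab_pos (P.J * P.m)).1
  have hCA : ¬ P.CA (P.a k) := P.not_CA_of_lt (by have := P.a_le hk; linarith)
  rcases P.edge_cases' h hCA (fun j _ h' => P.z_ne_a j k h'.symm) hzw with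
    ⟨k', hk', h1⟩ | ⟨j, hj, h1⟩ | h1
  · rcases h1 with ⟨h1, h2⟩ | ⟨h1, h2⟩
    · left
      rw [h2, P.a_strictMono.injective h1]
    · right; left
      rw [h2, (P.b_eq_a h1.symm).1]
  · rcases h1 with ⟨h1, h2⟩ | ⟨h1, h2⟩
    · right; right
      exact ⟨h2, j, P.a_strictMono.injective h1⟩
    · exact absurd h1 (P.a_ne_two k)
  · exfalso
    rcases h1 with ⟨h1, h2⟩ | ⟨h1, h2⟩
    · have := (P.ab_pos k).1; linarith
    · exact h2.2.2.1 k hk rfl

/-- Smaller neighbours. -/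
lemma smaller {v w : ℤ} (h : Rel P.L v w) (hv : ¬ P.CA v) (hzv : ∀ j < P.J, v ≠ P.z j)
    (hzw : ∀ j < P.J, w ≠ P.z j) (hlt : w < v) :
    (v = 2) ∨ (∃ k, 1 ≤ k ∧ k ≤ P.J * P.m ∧ v = P.a k ∧ w = P.b k) ∨
    (∃ j, j < P.J ∧ v = P.a (P.kz j) ∧ w = 2) ∨ (P.NA v ∧ w = 0) := by
  rcases P.edge_cases' h hv hzv hzw with ⟨k, hk, h1⟩ | ⟨j, hj, h1⟩ | h1
  · rcases Nat.eq_zero_or_pos k with h0 | h0
    · subst h0
      rw [a_zero, b_zero] at h1
      rcases h1 with ⟨h1, h2⟩ | ⟨h1, h2⟩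
      · linarith
      · exact Or.inl h1
    · have hba := P.b_lt_a h0
      rcases h1 with ⟨h1, h2⟩ | ⟨h1, h2⟩
      · exact Or.inr (Or.inl ⟨k, h0, by omega, h1, h2⟩)
      · linarith
  · rcases h1 with ⟨h1, h2⟩ | ⟨h1, h2⟩
    · exact Or.inr (Or.inr (Or.inl ⟨j, hj, h1, h2⟩))
    · exact Or.inl h1
  · rcases h1 with ⟨h1, h2⟩ | ⟨h1, h2⟩
    · have := h2.1; linarith
    · exact Or.inr (Or.inr (Or.inr ⟨h2, h1⟩))

lemma kz_ne {j j' r : ℕ} (h1 : 1 ≤ r) (h2 : r ≤ P.m - 1) : P.kz j - r ≠ P.kz j' := by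
  intro h
  have hm := P.hm
  have e1 : P.kz j - r = (P.m - 1 - r) + P.m * j := by
    unfold kz; rw [mul_comm j]; omega
  have e2 : P.kz j' = (P.m - 1) + P.m * j' := by
    unfold kz; rw [mul_comm j']; omega
  have e3 : (P.kz j - r) % P.m = P.m - 1 - r := by
    rw [e1, Nat.add_mul_mod_self_left, Nat.mod_eq_of_lt (by omega)]
  have e4 : P.kz j' % P.m = P.m - 1 := by
    rw [e2, Nat.add_mul_mod_self_left, Nat.mod_eq_of_lt (by omega)]
  rw [h, e4] at e3
  omega

/-- Walking down the path. -/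
lemma descent {j : ℕ} (hj : j < P.J) (l : ℕ) (hl : 3 ≤ l) (hlm : l ≤ P.m) (c : ℕ → ℤ)
    (hc : ∀ i, Rel P.L (c i) (c (i + 1))) (hper : ∀ i, c (i + l) = c i)
    (hnb : ∀ i, c (i + 2) ≠ c i) (hz : ∀ i, ∀ j < P.J, c i ≠ P.z j)
    (h0 : c 0 = P.a (P.kz j)) (h1 : c 1 = P.a (P.kz j - 1)) : False := by
  have hm := P.hm
  have hkz := P.kz_lt hj
  have hkm : P.m - 1 ≤ P.kz j := by unfold kz; omega
  have hdown : ∀ r, r + 1 ≤ P.m - 1 → c r = P.a (P.kz j - r) ∧ c (r + 1) = P.a (P.kz j - (r + 1)) := by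
    intro r
    induction r with
    | zero => intro _; exact ⟨h0, h1⟩
    | succ r ih =>
      intro hr
      obtain ⟨i1, i2⟩ := ih (by omega)
      refine ⟨i2, ?_⟩
      have hrel := hc (r + 1)
      rw [i2] at hrel
      have hne : c (r + 2) ≠ P.a (P.kz j - r) := by rw [← i1]; exact hnb r
      rcases P.nbr_a (by omega) hrel (hz _) with h2 | h2 | ⟨h2, j', hj'⟩
      · rw [show r + 1 + 1 = r + 2 from rfl] at h2 ⊢
        rw [h2]
        obtain ⟨k', hk'⟩ : ∃ k', P.kz j - (r + 1) = k' + 1 := ⟨P.kz j - (r + 2), by omega⟩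
        rw [hk', b_succ]
        have hnd : ¬ P.m ∣ (k' + 1) := by
          rw [← hk']
          intro hd
          have e1 : P.kz j - (r + 1) = (P.m - 1 - (r + 1)) + P.m * j := by
            unfold kz; rw [mul_comm j]; omega
          rw [e1] at hd
          have h3 := (Nat.dvd_add_left (Dvd.intro j rfl)).mp hd
          have := Nat.le_of_dvd (by omega) h3
          omega
        rw [if_neg hnd]
        congr 1
        omega
      · exfalso
        apply hne
        rw [show r + 2 = r + 1 + 1 from rfl, h2]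
        congr 1
        omega
      · exact absurd hj' (P.kz_ne (by omega) (by omega))
  have hlast : c P.m = 2 := by
    obtain ⟨i1, i2⟩ := hdown (P.m - 2) (by omega)
    have e : P.m - 2 + 1 = P.m - 1 := by omega
    rw [e] at i2
    have hrel := hc (P.m - 1)
    rw [i2] at hrel
    have hne : c (P.m - 2 + 2) ≠ c (P.m - 2) := hnb _
    rw [show P.m - 2 + 2 = P.m by omega, i1] at hne
    rw [show P.m - 1 + 1 = P.m by omega] at hrel
    rcases P.nbr_a (by omega) hrel (hz _) with h2 | h2 | ⟨h2, -⟩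
    · rw [h2]
      have e2 : P.kz j - (P.m - 1) = j * P.m := by unfold kz; omega
      rw [e2]
      rcases Nat.eq_zero_or_pos (j * P.m) with h3 | h3
      · rw [h3, b_zero]
      · obtain ⟨k', hk'⟩ : ∃ k', j * P.m = k' + 1 := ⟨j * P.m - 1, by omega⟩
        rw [hk', b_succ, if_pos]
        rw [← hk']
        exact Dvd.intro_left j rfl
    · exfalso
      apply hne
      rw [h2]
      congr 1
      omega
    · exact h2
  have hp := hper 0
  rw [zero_add, h0] at hp
  rcases eq_or_lt_of_le hlm with h2 | h2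
  · rw [h2, hlast] at hp
    exact P.a_ne_two _ hp.symm
  · obtain ⟨i1, i2⟩ := hdown (l - 1) (by omega)
    rw [show l - 1 + 1 = l by omega, hp] at i2
    have := P.a_strictMono.injective i2
    omega

/-- No short closed non-backtracking walk in the hub part. -/
lemma hub_girth (l : ℕ) (hl : 3 ≤ l) (hlm : l ≤ P.m) (c : ℕ → ℤ)
    (hc : ∀ i, Rel P.L (c i) (c (i + 1))) (hper : ∀ i, c (i + l) = c i)
    (hnb : ∀ i, c (i + 2) ≠ c i) (hCA : ∀ i, ¬ P.CA (c i)) : False := by
  have hm := P.hm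
  -- the previous vertex
  have hprev : ∀ i, Rel P.L (c i) (c (i + (l - 1))) ∧ c (i + 1) ≠ c (i + (l - 1)) := by
    intro i
    have h1 := hc (i + (l - 1))
    rw [show i + (l - 1) + 1 = i + l by omega, hper] at h1
    refine ⟨Rel.symm' h1, ?_⟩
    have h2 := hnb (i + (l - 1))
    rw [show i + (l - 1) + 2 = i + 1 + l by omega, hper] at h2
    exact h2
  have hz : ∀ i, ∀ j < P.J, c i ≠ P.z j := by
    intro i j hj h
    obtain ⟨h1, h2⟩ := hprev i
    have h3 := hc i
    rw [h] at h1 h3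
    exact h2 ((P.nbr_z hj h3).trans (P.nbr_z hj h1).symm)
  have hne : ∀ i, c i ≠ c (i + 1) := by
    intro i h
    obtain ⟨h1, h2⟩ := hc i
    rw [← h] at h1 h2
    rcases P.edge_cases (hc i) with ⟨k, hk, h3⟩ | ⟨j, hj, h3⟩ | ⟨j, hj, h3⟩ | h3 | h3
    · rw [← h] at h3
      rcases Nat.eq_zero_or_pos k with h0 | h0
      · subst h0
        rw [a_zero, b_zero] at h3
        omega
      · have := P.b_lt_a h0
        omega
    · rw [← h] at h3
      have := P.a_ne_two (P.kz j)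
      omega
    · rcases h3 with ⟨h3, -⟩ | ⟨-, h3⟩
      · exact hz _ j hj h3
      · exact hz _ j hj h3
    · exact hCA _ h3.2.2.1
    · rw [← h] at h3
      rcases h3 with ⟨h3, h4⟩ | ⟨h3, h4⟩
      · have := h4.1; omega
      · have := h4.1; omega
  -- the maximum
  obtain ⟨i0, -, hmaxi⟩ := Finset.exists_max_image (Finset.range l) c
    ⟨0, Finset.mem_range.mpr (by omega)⟩
  have hmod : ∀ i, c i = c (i % l) := by
    intro i
    have h2 : ∀ q r, c (r + l * q) = c r := by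
      intro q
      induction q with
      | zero => intro r; simp
      | succ q ih =>
        intro r
        rw [show r + l * (q + 1) = (r + l * q) + l by ring, hper, ih]
    conv_lhs => rw [← Nat.mod_add_div i l]
    exact h2 _ _
  have hmax : ∀ i, c i ≤ c i0 := by
    intro i
    rw [hmod i]
    exact hmaxi _ (Finset.mem_range.mpr (Nat.mod_lt _ (by omega)))
  obtain ⟨hr, hnr⟩ := hprev i0
  have hlt1 : c (i0 + 1) < c i0 := lt_of_le_of_ne (hmax _) (hne i0).symm
  have hlt2 : c (i0 + (l - 1)) < c i0 := by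
    apply lt_of_le_of_ne (hmax _)
    intro h
    apply hne (i0 + (l - 1))
    rw [show i0 + (l - 1) + 1 = i0 + l by omega, hper, h]
  have s1 := P.smaller (hc i0) (hCA _) (hz _) (hz _) hlt1
  have s2 := P.smaller hr (hCA _) (hz _) (hz _) hlt2
  -- excluded: v = 2
  have hv2 : c i0 ≠ 2 := by
    intro h2
    -- neighbours of 2 smaller than 2 are 0 and 1
    have hsm : ∀ i, Rel P.L (c i0) (c i) → c i < c i0 → c i = 0 ∨ c i = 1 := by
      intro i hri hlt
      rcases P.edge_cases' hri (hCA _) (hz _) (hz _) with ⟨k, hk, h3⟩ | ⟨j, hj, h3⟩ | h3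
      · rcases h3 with ⟨h3, h4⟩ | ⟨h3, h4⟩
        · exact absurd (h3.symm.trans h2) (P.a_ne_two k)
        · right
          rw [h4]
          rcases Nat.eq_zero_or_pos k with h0 | h0
          · subst h0; exact P.a_zero
          · have := P.a_ge_three h0
            linarith
      · rcases h3 with ⟨h3, h4⟩ | ⟨h3, h4⟩
        · linarith
        · have := P.a_ge_three (show 1 ≤ P.kz j by have := P.kz_ge j; omega)
          linarith
      · rcases h3 with ⟨h3, h4⟩ | ⟨h3, h4⟩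
        · linarith
        · left; exact h3
    have h1 : ∃ i, c i = 1 := by
      rcases hsm _ (hc i0) hlt1 with h3 | h3
      · rcases hsm _ hr hlt2 with h4 | h4
        · exact absurd (h3.trans h4.symm) hnr
        · exact ⟨_, h4⟩
      · exact ⟨_, h3⟩
    obtain ⟨i1, hi1⟩ := h1
    have hn1 : ∀ w, Rel P.L (c i1) w → (∀ j < P.J, w ≠ P.z j) → w ≤ 2 → w = 2 := by
      intro w hw hzw hw2
      rw [hi1, ← P.a_zero] at hw
      rcases P.nbr_a (Nat.zero_le _) hw hzw with h3 | h3 | ⟨h3, -⟩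
      · exact h3
      · have := P.a_ge_three (show 1 ≤ 0 + 1 by omega)
        linarith
      · exact h3
    obtain ⟨h3, h4⟩ := hprev i1
    apply h4
    rw [hn1 _ (hc i1) (hz _) (by rw [← h2]; exact hmax _),
      hn1 _ h3 (hz _) (by rw [← h2]; exact hmax _)]
  -- the maximum is the last vertex of a cycle
  have hmain : ∃ j, j < P.J ∧ c i0 = P.a (P.kz j) ∧
      (c (i0 + 1) = P.a (P.kz j - 1) ∨ c (i0 + (l - 1)) = P.a (P.kz j - 1)) := by
    have hbk : ∀ j, P.b (P.kz j) = P.a (P.kz j - 1) := by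
      intro j
      obtain ⟨k, hk⟩ : ∃ k, P.kz j = k + 1 := ⟨P.kz j - 1, by have := P.kz_ge j; omega⟩
      have hnd := P.not_dvd_kz j
      rw [hk] at hnd ⊢
      rw [b_succ, if_neg hnd]
      congr 1
    rcases s1 with h | ⟨k, hk1, hk2, h3, h4⟩ | ⟨j, hj, h3, h4⟩ | ⟨h3, h4⟩
    · exact absurd h hv2
    · rcases s2 with h | ⟨k', hk1', hk2', h3', h4'⟩ | ⟨j, hj, h3', h4'⟩ | ⟨h3', h4'⟩
      · exact absurd h hv2
      · exfalso
        apply hnr
        rw [h4, h4', P.a_strictMono.injective (h3.symm.trans h3')]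
      · refine ⟨j, hj, h3', Or.inl ?_⟩
        rw [h4, P.a_strictMono.injective (h3.symm.trans h3'), hbk]
      · exact absurd h3 (h3'.2.2.1 k hk2)
    · rcases s2 with h | ⟨k', hk1', hk2', h3', h4'⟩ | ⟨j', hj', h3', h4'⟩ | ⟨h3', h4'⟩
      · exact absurd h hv2
      · refine ⟨j, hj, h3, Or.inr ?_⟩
        rw [h4', P.a_strictMono.injective (h3'.symm.trans h3), hbk]
      · exact absurd (h4.trans h4'.symm) hnr
      · exact absurd h3 (h3'.2.2.1 _ (by have := P.kz_lt hj; omega))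
    · rcases s2 with h | ⟨k', hk1', hk2', h3', h4'⟩ | ⟨j', hj', h3', h4'⟩ | ⟨h3', h4'⟩
      · exact absurd h hv2
      · exact absurd h3' (h3.2.2.1 k' hk2')
      · exact absurd h3' (h3.2.2.1 _ (by have := P.kz_lt hj'; omega))
      · exact absurd (h4.trans h4'.symm) hnr
  obtain ⟨j, hj, h0, h1 | h1⟩ := hmain
  · refine P.descent hj l hl hlm (fun i => c (i0 + i)) (fun i => hc _) ?_ ?_ (fun i => hz _) h0 h1
    · intro i
      rw [show i0 + (i + l) = (i0 + i) + l by ring]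
      exact hper _
    · intro i
      exact hnb (i0 + i)
  · refine P.descent hj l hl hlm (fun i => c (i0 + (l - 1) * i)) ?_ ?_ ?_ (fun i => hz _)
      (by simpa using h0) (by simpa using h1)
    · intro i
      have h2 := (hprev (i0 + (l - 1) * i)).1
      have e : i0 + (l - 1) * (i + 1) = i0 + (l - 1) * i + (l - 1) := by ring
      rw [e]
      exact h2
    · intro i
      show c (i0 + (l - 1) * (i + l)) = c (i0 + (l - 1) * i)
      rw [hmod (i0 + (l - 1) * (i + l)), hmod (i0 + (l - 1) * i)]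
      congr 1
      rw [show i0 + (l - 1) * (i + l) = i0 + (l - 1) * i + l * (l - 1) by ring,
        Nat.add_mul_mod_self_left]
    · intro i
      show c (i0 + (l - 1) * (i + 2)) ≠ c (i0 + (l - 1) * i)
      have h2 := hnb (i0 + (l - 1) * (i + 2))
      have e : i0 + (l - 1) * (i + 2) + 2 = i0 + (l - 1) * i + l + l := by
        have : (l - 1) * (i + 2) = (l - 1) * i + 2 * (l - 1) := by ring
        omega
      rw [e, hper, hper] at h2
      exact h2.symm

lemma girth_all (l : ℕ) (hl : 3 ≤ l) (hlm : l ≤ P.m) (c : ℕ → ℤ)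
    (hc : ∀ i, Rel P.L (c i) (c (i + 1))) (hper : ∀ i, c (i + l) = c i)
    (hnb : ∀ i, c (i + 2) ≠ c i) : False := by
  have hall : ∀ i, P.CA (c i) ↔ P.CA (c 0) := by
    intro i
    induction i with
    | zero => rfl
    | succ i ih => rw [← P.CA_iff (hc i), ih]
  by_cases h : P.CA (c 0)
  · exact P.bulk_girth l (by omega) (by omega) c hc hper hnb (fun i => (hall i).mpr h)
  · exact P.hub_girth l hl hlm c hc hper hnb (fun i h' => h ((hall i).mp h'))

end Par

end Pool.Agent.MP_1b49f3_co
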