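import Mathlib
import Pool.Agent.MP_1b49f3_co.Low2

set_option autoImplicit false

/-!
# Assembling the low structure
-/

namespace Pool.Agent.MP_1b49f3_co

namespace Par

variable (P : Par)

lemma CA_nonneg {v : ℤ} (h : P.CA v) : 0 ≤ v := by
  have h1 := P.XY v
  have h2 := P.X_bound v
  have h3 : P.Q * 1 ≤ P.Q * P.Y v := by
    apply mul_le_mul_of_nonneg_left h.1
    unfold Q; have := P.R_pos; linarith
  unfold Q at h1 h3
  linarith

lemma L_nonneg {s : ℤ} (hs : 2 ≤ s) : 0 ≤ P.L s ∧ P.L s ≤ s := by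
  have hmax := P.max_lt_T
  have hpos := (P.ab_pos (P.J * P.m)).1
  rcases P.L_cases hs with ⟨k, hk, h1, h2⟩ | ⟨j, hj, h1, h2⟩ | ⟨j, hj, h1, h2⟩ | ⟨h1, h2⟩ |
    ⟨h1, h2⟩
  · rw [h2, h1, a_succ]
    have := P.ab_pos k
    constructor <;> linarith
  · rw [h2, h1]
    have := (P.ab_pos (P.kz j)).1
    unfold z
    constructor <;> linarith
  · rw [h2, h1]
    have := P.z_ge j
    have := P.z_lt_max hj
    have : (0 : ℤ) ≤ j := by positivity
    constructor <;> linarith
  · rw [h2]
    obtain ⟨⟨-, -, f1⟩, ⟨-, -, f2⟩⟩ := P.bulk_facts h1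
    have := P.CA_nonneg f1
    have := P.CA_nonneg f2
    constructor <;> linarith
  · rw [h1]
    constructor <;> linarith

lemma L_ne {s : ℤ} (hs : 2 ≤ s) : 2 * P.L s ≠ s := by
  have hmax := P.max_lt_T
  have hpos := (P.ab_pos (P.J * P.m)).1
  rcases P.L_cases hs with ⟨k, hk, h1, h2⟩ | ⟨j, hj, h1, h2⟩ | ⟨j, hj, h1, h2⟩ | ⟨h1, h2⟩ |
    ⟨h1, h2⟩
  · rw [h2, h1, a_succ]
    rcases Nat.eq_zero_or_pos k with h0 | h0
    · subst h0; rw [a_zero, b_zero]; norm_num
    · have := P.b_lt_a h0
      intro h; linarith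
  · rw [h2, h1]
    have := P.a_ne_two (P.kz j)
    unfold z
    intro h
    apply this
    linarith
  · rw [h2, h1]
    have := P.z_lt_max hj
    have : (0 : ℤ) ≤ j := by positivity
    intro h; linarith
  · rw [h2]
    intro h
    exact P.Lb_ne h1 (by linarith)
  · rw [h1]
    intro h; linarith

lemma len_of_le {s E : ℤ} (h1 : 0 ≤ P.L s) (h2 : P.L s ≤ s) (h3 : s ≤ E) :
    |2 * P.L s - s| ≤ E := by
  rw [abs_le]
  constructor <;> linarith

lemma L_len {s : ℤ} (hs : 2 ≤ s) : |2 * P.L s - s| ≤ P.Q * (P.R + 2) := by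
  have hmax := P.max_lt_T
  have hpos := (P.ab_pos (P.J * P.m)).1
  obtain ⟨n1, n2⟩ := P.L_nonneg hs
  have hR := P.R_pos
  have hQ2 : P.Q * 3 ≤ P.Q * (P.R + 2) := by
    apply mul_le_mul_of_nonneg_left (by linarith)
    unfold Q; linarith
  have hQ0 : 0 ≤ P.Q := by unfold Q; linarith
  have hTQ : P.T ≤ P.Q := by
    unfold T
    have : (0 : ℤ) ≤ P.M := by positivity
    linarith
  rcases P.L_cases hs with ⟨k, hk, h1, h2⟩ | ⟨j, hj, h1, h2⟩ | ⟨j, hj, h1, h2⟩ | ⟨h1, h2⟩ |
    ⟨h1, h2⟩
  · apply P.len_of_le n1 n2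
    rw [h1]
    have := P.a_le (show k + 1 ≤ P.J * P.m by omega)
    linarith
  · apply P.len_of_le n1 n2
    rw [h1]
    have := P.z_lt_max hj
    linarith
  · apply P.len_of_le n1 n2
    rw [h1]
    have hj2 : (j : ℤ) ≤ 2 * P.M + 2 := by
      have : j ≤ 2 * P.M + 2 := by unfold J at hj; omega
      exact_mod_cast this
    have : (P.M : ℤ) + 1 ≤ P.Q := by
      have : (P.M : ℤ) = 2 * P.N := by unfold M; push_cast; ring
      unfold Q R
      have := P.N_pos
      omega
    unfold T
    linarith
  · obtain ⟨⟨e1, e2, f1⟩, ⟨e3, e4, f2⟩⟩ := P.bulk_facts h1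
    rw [h2]
    have h3 := P.XY (P.Lb s)
    have h4 := P.XY (s - P.Lb s)
    have b1 := P.X_bound (P.Lb s)
    have b2 := P.X_bound (s - P.Lb s)
    have h5 : 2 * P.Lb s - s = (P.X (P.Lb s) - P.X (s - P.Lb s)) +
        P.Q * (P.Y (P.Lb s) - P.Y (s - P.Lb s)) := by
      linear_combination h3 - h4
    rw [e2, e4] at h5
    have h6 : P.Y s / 2 - (P.Y s - P.Y s / 2) = 0 ∨ P.Y s / 2 - (P.Y s - P.Y s / 2) = -1 := by
      omega
    have hQe : P.Q = 2 * P.R + 1 := rfl
    rw [h5, abs_le]
    rcases h6 with h6 | h6 <;> rw [h6] <;> constructor <;> linarith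
  · apply P.len_of_le n1 n2
    have hnCA := h2.2.1
    by_contra hcon
    push Not at hcon
    apply hnCA
    have h3 := P.XY s
    have h4 := P.X_bound s
    have hY : P.R + 1 ≤ P.Y s := by
      by_contra h5
      push Not at h5
      have h6 : P.Q * P.Y s ≤ P.Q * P.R := by
        apply mul_le_mul_of_nonneg_left (by linarith) hQ0
      have h7 : P.Q * (P.R + 2) = P.Q * P.R + P.Q * 2 := by ring
      have hQe : P.Q = 2 * P.R + 1 := rfl
      linarith
    refine ⟨by linarith, ?_⟩
    rw [abs_le]
    have : (0 : ℤ) ≤ P.M := by positivity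
    constructor <;> linarith

/-- The low structure. -/
noncomputable def low : LowStruct (P.m + 1) where
  L := P.L
  E := P.Q * (P.R + 2)
  nonneg := fun _ hs => P.L_nonneg hs
  ne := fun _ hs => P.L_ne hs
  len := fun _ hs => P.L_len hs
  girth := by
    intro l hl hlg c hc hper hnb
    exact P.girth_all l hl (by omega) c hc hper hnb
  cyc := by
    have hm := P.hm
    have hJ : 1 ≤ P.J := by unfold J; omega
    have hJm : P.m ≤ P.J * P.m := by
      have : 1 * P.m ≤ P.J * P.m := Nat.mul_le_mul_right _ hJ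
      omega
    have h2 : P.L 3 = 1 := by
      have h3 := P.L_a (k := 0) (by omega)
      rw [a_succ, a_zero, b_zero] at h3
      norm_num at h3
      exact h3
    have hz0 : P.kz 0 = P.m - 1 := by unfold kz; omega
    refine ⟨fun i => if i < P.m then P.a i else 2, ?_, ?_, ?_⟩
    · intro i hi j hj h
      by_cases h1 : i < P.m
      · by_cases h3 : j < P.m
        · simp only [h1, h3, if_true] at h
          exact P.a_strictMono.injective h
        · simp only [h1, h3, if_true, if_false] at h
          exact absurd h (P.a_ne_two i)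
      · by_cases h3 : j < P.m
        · simp only [h1, h3, if_true, if_false] at h
          exact absurd h.symm (P.a_ne_two j)
        · omega
    · intro i hi
      by_cases h1 : i + 1 < P.m
      · have h3 : i < P.m := by omega
        simp only [h1, h3, if_true]
        have e : P.a i + P.a (i + 1) = P.a (i + 1 + 1) := by
          rw [P.a_succ (i + 1), b_succ, if_neg]
          · ring
          · intro hd
            have := Nat.le_of_dvd (by omega) hd
            omega
        have p1 := (P.ab_pos i).1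
        have p2 := (P.ab_pos (i + 1)).1
        refine ⟨by linarith, Or.inr ?_⟩
        rw [e, P.L_a (by omega)]
      · have h3 : i < P.m := by omega
        have h4 : i = P.m - 1 := by omega
        simp only [h1, h3, if_true, if_false]
        have e : P.a i + 2 = P.z 0 := by unfold z; rw [hz0, h4]
        have p1 := (P.ab_pos i).1
        refine ⟨by linarith, Or.inl ?_⟩
        rw [e, P.L_z (by omega), hz0, h4]
    · have h1 : ¬ (P.m + 1 - 1 < P.m) := by omega
      have h3 : 0 < P.m := by omega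
      simp only [h1, h3, if_true, if_false, a_zero]
      refine ⟨by norm_num, Or.inr ?_⟩
      norm_num
      exact h2

end Par

/-- The low structure exists for every `g ≥ 4`. -/
theorem lowStruct_exists (g : ℕ) (hg : 4 ≤ g) : Nonempty (LowStruct g) := by
  obtain ⟨N, hN, π, hb, hfree⟩ := magnus g
  have h := (Par.low
    { m := g - 1
      hm := by omega
      N := N
      hN := hN
      π := π
      hb := hb
      hfree := by
        rw [show g - 1 + 1 = g by omega]
        exact hfree })
  have e : g - 1 + 1 = g := by omega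
  exact ⟨e ▸ h⟩

end Pool.Agent.MP_1b49f3_co
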