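import Mathlib
import Pool.Agent.MP_1b49f3_co.Low3
import Pool.Agent.MP_1b49f3_co.Close
import Pool.Agent.MP_1b49f3_co.Magnus

set_option autoImplicit false

/-!
# An explicit bound for the orders in the theorem on the maximum size of given girth
-/

namespace Pool.Agent.MP_1b49f3_co

theorem two_mul_le_pow (g : ℕ) (hg : 4 ≤ g) : 2 * g + 4 ≤ 2 ^ g := by
  induction g, hg using Nat.le_induction with
  | base => norm_num
  | succ g hg ih =>
    rw [pow_succ]
    omega

theorem mul_five_le (g : ℕ) (hg : 4 ≤ g) : g * 5 ^ g ≤ 8 ^ g := by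
  induction g, hg using Nat.le_induction with
  | base => norm_num
  | succ g hg ih =>
    calc (g + 1) * 5 ^ (g + 1) = (5 * (g + 1)) * 5 ^ g := by ring
      _ ≤ (8 * g) * 5 ^ g := Nat.mul_le_mul_right _ (by omega)
      _ = 8 * (g * 5 ^ g) := by ring
      _ ≤ 8 * 8 ^ g := Nat.mul_le_mul_left _ ih
      _ = 8 ^ (g + 1) := by ring

theorem eight_nine (g : ℕ) (hg : 4 ≤ g) : 8 ^ g + g + 6 ≤ 9 ^ g := by
  induction g, hg using Nat.le_induction with
  | base => norm_num
  | succ g hg ih =>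
    rw [pow_succ, pow_succ]
    omega

/-- `magnus` with a bound for `N`. -/
theorem magnus_le (g : ℕ) (hg : 4 ≤ g) : ∃ N : ℕ, Odd N ∧ N ≤ 2 ^ (8 ^ g) ∧ ∃ π : Fin 4 → Equiv.Perm (ZMod N),
    (∀ t, Function.Bijective (fun v => v + π t v)) ∧
    ∀ (c : ℕ → ZMod N) (t : ℕ → Fin 4) (σ : ℕ → Bool) (l : ℕ), 0 < l → l < g →
      (∀ i < l, c (i + 1) = if σ i then π (t i) (c i) else (π (t i)).symm (c i)) →
      (∀ i, i + 1 < l → t (i + 1) = t i → σ (i + 1) = σ i) → c l ≠ c 0 := by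
  obtain ⟨p, hp, hpg', hp2g⟩ := Nat.exists_prime_lt_and_le_two_mul (g + 2) (by omega)
  have hpg : g + 3 ≤ p := hpg'
  have hbound : p ^ (5 ^ g) ≤ 2 ^ (8 ^ g) := by
    calc p ^ (5 ^ g) ≤ (2 ^ g) ^ (5 ^ g) := Nat.pow_le_pow_left (by
          have := two_mul_le_pow g hg
          omega) _
      _ = 2 ^ (g * 5 ^ g) := by rw [← pow_mul]
      _ ≤ 2 ^ (8 ^ g) := Nat.pow_le_pow_right (by norm_num) (mul_five_le g hg)
  have : Fact p.Prime := ⟨hp⟩
  have hp2 : p ≠ 2 := by omega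
  set n := 5 ^ g with hn
  have : NeZero (p ^ n) := ⟨pow_ne_zero _ hp.ne_zero⟩
  have hcard : Fintype.card (Fin n → ZMod p) = Fintype.card (ZMod (p ^ n)) := by
    rw [Fintype.card_fun, ZMod.card, ZMod.card, Fintype.card_fin]
  have key : ∀ x y : ℤ, ((x : ZMod (p ^ n)) = (y : ZMod (p ^ n))) → (p : ℤ) ^ n ∣ x - y := by
    intro x y h
    have h1 : ((x - y : ℤ) : ZMod (p ^ n)) = 0 := by push_cast; rw [h, sub_self]
    have h2 := (ZMod.intCast_zmod_eq_zero_iff_dvd (x - y) (p ^ n)).mp h1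
    exact_mod_cast h2
  let E0 : (Fin n → ZMod p) → ZMod (p ^ n) := fun f => ((psi p n f : ℤ) : ZMod (p ^ n))
  have hE0 : Function.Bijective E0 := by
    rw [Fintype.bijective_iff_injective_and_card]
    refine ⟨fun f f' h => psi_inj p n f f' (key _ _ h), hcard⟩
  let E : (Fin n → ZMod p) ≃ ZMod (p ^ n) := Equiv.ofBijective E0 hE0
  let Φ : Fin 4 → Equiv.Perm (Fin n → ZMod p) := fun t =>
    ⟨actV t 1, actV t (-1), fun f => actV_neg t 1 f, fun f => by
      have := actV_neg t (-1 : ZMod p) f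
      rwa [neg_neg] at this⟩
  refine ⟨p ^ n, (hp.odd_of_ne_two hp2).pow, hbound, fun t => (E.symm.trans (Φ t)).trans E, ?_, ?_⟩
  · intro t
    have hinj : Function.Injective (fun f : Fin n → ZMod p => E f + E (Φ t f)) := by
      intro f f' h
      apply psi_sum_inj p hp2 n (actV t 1) (actV_tri t 1) f f'
      have h1 : (((psi p n f : ℤ) + psi p n (actV t 1 f) : ℤ) : ZMod (p ^ n)) =
          (((psi p n f' : ℤ) + psi p n (actV t 1 f') : ℤ) : ZMod (p ^ n)) := by
        have h2 : ((psi p n f : ℤ) : ZMod (p ^ n)) + ((psi p n (actV t 1 f) : ℤ) : ZMod (p ^ n)) =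
            ((psi p n f' : ℤ) : ZMod (p ^ n)) + ((psi p n (actV t 1 f') : ℤ) : ZMod (p ^ n)) := h
        push_cast at h2 ⊢
        exact h2
      exact key _ _ h1
    rw [Fintype.bijective_iff_injective_and_card]
    refine ⟨fun v w h => ?_, rfl⟩
    have h2 : E (E.symm v) + E (Φ t (E.symm v)) = E (E.symm w) + E (Φ t (E.symm w)) := by
      rw [Equiv.apply_symm_apply, Equiv.apply_symm_apply]
      exact h
    exact E.symm.injective (hinj h2)
  · intro c t σ l hl hlg hc hred hcl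
    let d : ℕ → (Fin n → ZMod p) := fun i => E.symm (c i)
    have hd : ∀ i < l, d (i + 1) = actV (t i) (if σ i then 1 else -1) (d i) := by
      intro i hi
      simp only [d]
      rw [hc i hi]
      cases σ i with
      | true => simp [Φ]
      | false => simp [Φ]
    let G : ℕ → List (Fin 4) → ZMod p := fun i =>
      Nat.rec (fun u => ext (d 0) (idx u))
        (fun i F => actL (t i) (if σ i then 1 else -1) F) i
    have hG : ∀ i, G (i + 1) = actL (t i) (if σ i then 1 else -1) (G i) := fun i => rfl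
    have hGd : ∀ i ≤ l, ∀ u : List (Fin 4), idx u ≤ n → G i u = ext (d i) (idx u) := by
      intro i
      induction i with
      | zero => intro _ u _; rfl
      | succ i ih =>
        intro hi u hu
        rw [hG, hd i (by omega), ext_actV _ _ _ _ hu]
        cases u with
        | nil => simp only [actL]; exact ih (by omega) [] hu
        | cons s w =>
          have hw : idx w ≤ n := by simp only [idx] at hu; omega
          simp only [actL]
          rw [ih (by omega) (s :: w) hu, ih (by omega) w hw]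
    refine free_word t σ G hG l hl hred (by omega) rfl ?_
    intro v hv
    have hidx : idx v ≤ n := by
      have h1 := idx_lt v
      have h2 : 5 ^ v.length ≤ 5 ^ g := Nat.pow_le_pow_right (by norm_num) (by omega)
      omega
    rw [hGd l le_rfl v hidx, hGd 0 (by omega) v hidx]
    have : d l = d 0 := by simp only [d]; rw [hcl]
    rw [this]


namespace Close

theorem girth_le_expl {g : ℕ} (S : LowStruct g) (hg : 4 ≤ g) (d : ℕ → ℤ) (B : ℤ)
    (hBi : ∀ i, i < g → |d i| ≤ B) (hd1 : ∀ i < g, ∀ j < g, d i = d j → i = j)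
    (hd2 : ∀ i, i + 1 < g → Rel S.L (d i) (d (i + 1))) (hd3 : Rel S.L (d (g - 1)) (d 0))
    (p : ℕ) (hp' : 2 * B + S.E + 10 ≤ (p : ℤ)) : (G S p).egirth ≤ (g : ℕ∞) := by
  have hE := E_pos S
  have hB0 : 0 ≤ B := (abs_nonneg _).trans (hBi 0 (by omega))
  have key : ∀ i j, i < g → j < g → Rel S.L (d i) (d j) →
      A S ((p : ℤ) - 1) (d i) (d j) ∧ 0 ≤ d i ∧ d i < p ∧ 0 ≤ d j ∧ d j < p := by
    intro i j hi hj h
    obtain ⟨h1, h2⟩ := h
    have h3 := S.nonneg _ h1
    have h4 := hBi i hi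
    have h5 := hBi j hj
    rw [abs_le] at h4 h5
    have h6 : Ln S ((p : ℤ) - 1) (d i + d j) = S.L (d i + d j) := by
      unfold Ln
      rw [if_pos (by omega)]
    refine ⟨⟨h1, by omega, by rw [h6]; exact h2⟩, ?_⟩
    rcases h2 with h2 | h2 <;> rw [h2] at h3 <;> omega
  have hrel : ∀ i, i < g → 0 ≤ d i ∧ d i < p := by
    intro i hi
    by_cases hi' : i + 1 < g
    · have := key i (i + 1) hi hi' (hd2 i hi')
      exact ⟨this.2.1, this.2.2.1⟩
    · have hi2 : i = g - 1 := by omega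
      subst hi2
      have := key (g - 1) 0 hi (by omega) hd3
      exact ⟨this.2.1, this.2.2.1⟩
  have hc : (SimpleGraph.cycleGraph g).IsContained (G S p) := by
    refine ⟨⟨⟨fun i => ⟨(d i).toNat, by have := hrel i i.2; omega⟩, ?_⟩, ?_⟩⟩
    · have main : ∀ a b : Fin g, (a - b).val = 1 →
          (G S p).Adj ⟨(d a).toNat, by have := hrel a a.2; omega⟩
            ⟨(d b).toNat, by have := hrel b b.2; omega⟩ := by
        intro a b hab
        have ha := hrel a a.2
        have hb := hrel b b.2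
        have e1 : (((d a).toNat : ℕ) : ℤ) = d a := Int.toNat_of_nonneg ha.1
        have e2 : (((d b).toNat : ℕ) : ℤ) = d b := Int.toNat_of_nonneg hb.1
        have hne : (a : ℕ) ≠ b := by
          intro h
          rw [Fin.sub_val_of_le (le_of_eq (Fin.ext h.symm))] at hab
          omega
        refine ⟨?_, ?_⟩
        · intro h
          simp only [Fin.mk.injEq] at h
          have : d a = d b := by omega
          exact hne (hd1 a a.2 b b.2 this)
        · simp only [e1, e2]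
          apply A_symm
          rcases le_or_gt b a with hle | hlt
          · rw [Fin.sub_val_of_le hle] at hab
            have : (a : ℕ) = b + 1 := by omega
            rw [this]
            exact (key b (b + 1) b.2 (by omega) (hd2 b (by omega))).1
          · rw [Fin.coe_sub_iff_lt.mpr hlt] at hab
            have h1 : (a : ℕ) = 0 := by have := b.2; omega
            have h2 : (b : ℕ) = g - 1 := by have := b.2; omega
            rw [h1, h2]
            exact (key (g - 1) 0 (by omega) (by omega) hd3).1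
      intro a b hab
      rcases SimpleGraph.cycleGraph_adj'.mp hab with h | h
      · exact main a b h
      · exact (main b a h).symm
    · intro a b hab
      have ha := hrel a a.2
      have hb := hrel b b.2
      simp only [RelHom.coeFn_mk, Fin.mk.injEq] at hab
      have : d a = d b := by omega
      exact Fin.ext (hd1 a a.2 b b.2 this)
  rw [SimpleGraph.cycleGraph_isContained_iff (by omega)] at hc
  obtain ⟨v, w, hw, hwl⟩ := hc
  refine le_of_le_of_eq (SimpleGraph.egirth_le_length hw) ?_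
  rw [hwl]


end Close

namespace Par

variable (P : Par)

/-- The cycle of the low structure. -/
def cyd (i : ℕ) : ℤ := if i < P.m then P.a i else 2

theorem low_cyc : (∀ i < P.m + 1, ∀ j < P.m + 1, P.cyd i = P.cyd j → i = j) ∧
    (∀ i, i + 1 < P.m + 1 → Rel P.L (P.cyd i) (P.cyd (i + 1))) ∧
    Rel P.L (P.cyd (P.m + 1 - 1)) (P.cyd 0) := by
  have hm := P.hm
  have hJ : 1 ≤ P.J := by unfold J; omega
  have hJm : P.m ≤ P.J * P.m := by
    have : 1 * P.m ≤ P.J * P.m := Nat.mul_le_mul_right _ hJ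
    omega
  have h2 : P.L 3 = 1 := by
    have h3 := P.L_a (k := 0) (by omega)
    rw [a_succ, a_zero, b_zero] at h3
    norm_num at h3
    exact h3
  have hz0 : P.kz 0 = P.m - 1 := by unfold kz; omega
  unfold cyd
  refine ⟨?_, ?_, ?_⟩
  · intro i hi j hj h
    by_cases h1 : i < P.m
    · by_cases h3 : j < P.m
      · simp only [h1, h3, if_true] at h
        exact P.a_strictMono.injective h
      · simp only [h1, h3, if_true, if_false] at h
        exact absurd h (P.a_ne_two i)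
    · by_cases h3 : j < P.m
      · simp only [h1, h3, if_true, if_false] at h
        exact absurd h.symm (P.a_ne_two j)
      · omega
  · intro i hi
    by_cases h1 : i + 1 < P.m
    · have h3 : i < P.m := by omega
      simp only [h1, h3, if_true]
      have e : P.a i + P.a (i + 1) = P.a (i + 1 + 1) := by
        rw [P.a_succ (i + 1), b_succ, if_neg]
        · ring
        · intro hd
          have := Nat.le_of_dvd (by omega) hd
          omega
      have p1 := (P.ab_pos i).1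
      have p2 := (P.ab_pos (i + 1)).1
      refine ⟨by linarith, Or.inr ?_⟩
      rw [e, P.L_a (by omega)]
    · have h3 : i < P.m := by omega
      have h4 : i = P.m - 1 := by omega
      simp only [h1, h3, if_true, if_false]
      have e : P.a i + 2 = P.z 0 := by unfold z; rw [hz0, h4]
      have p1 := (P.ab_pos i).1
      refine ⟨by linarith, Or.inl ?_⟩
      rw [e, P.L_z (by omega), hz0, h4]
  · have h1 : ¬ (P.m + 1 - 1 < P.m) := by omega
    have h3 : 0 < P.m := by omega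
    simp only [h1, h3, if_true, if_false, a_zero]
    refine ⟨by norm_num, Or.inr ?_⟩
    norm_num
    exact h2

theorem ab_le (k : ℕ) : P.a k ≤ 2 ^ (k + 1) ∧ P.b k ≤ 2 ^ (k + 1) := by
  induction k with
  | zero => rw [a_zero, b_zero]; norm_num
  | succ k ih =>
    have h2 : (2 : ℤ) ≤ 2 ^ (k + 1) := by
      calc (2 : ℤ) = 2 ^ 1 := by norm_num
        _ ≤ 2 ^ (k + 1) := pow_le_pow_right₀ (by norm_num) (by omega)
    rw [a_succ, b_succ, pow_succ]
    refine ⟨by linarith [ih.1, ih.2], ?_⟩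
    split_ifs
    · linarith
    · linarith [ih.1]

theorem cyd_le (i : ℕ) (hi : i < P.m + 1) : |P.cyd i| ≤ 2 ^ (P.m + 1) := by
  have hm := P.hm
  unfold cyd
  split_ifs with h
  · have h1 := (P.ab_pos i).1
    rw [abs_of_nonneg (by linarith)]
    refine (P.ab_le i).1.trans (pow_le_pow_right₀ (by norm_num) (by omega))
  · rw [abs_of_nonneg (by norm_num)]
    calc (2 : ℤ) = 2 ^ 1 := by norm_num
      _ ≤ 2 ^ (P.m + 1) := pow_le_pow_right₀ (by norm_num) (by omega)

end Par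

theorem close_expl (g : ℕ) (hg : 4 ≤ g) (S : LowStruct g) (d : ℕ → ℤ) (B : ℤ)
    (hBi : ∀ i, i < g → |d i| ≤ B) (hd1 : ∀ i < g, ∀ j < g, d i = d j → i = j)
    (hd2 : ∀ i, i + 1 < g → Rel S.L (d i) (d (i + 1))) (hd3 : Rel S.L (d (g - 1)) (d 0))
    (p : ℕ) (hp1 : 2 * B + S.E + 10 ≤ (p : ℤ))
    (hp2 : 4 * Close.D S * (S.E + 1) + 4 * (S.E + 1) < (p : ℤ) - 1) :
    ∃ G : SimpleGraph (Fin p), SuperEdgeMagic G ∧ G.girth = g ∧ Nat.card G.edgeSet = 2 * p - 5 := by
  refine ⟨Close.G S p, Close.superEdgeMagic S p hp2, ?_, Close.card_edge S p hp2⟩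
  have h : (Close.G S p).egirth = (g : ℕ∞) :=
    le_antisymm (Close.girth_le_expl S hg d B hBi hd1 hd2 hd3 p hp1) (Close.girth_ge S p hp2)
  rw [SimpleGraph.girth, h, ENat.toNat_natCast]

namespace Par

variable (P : Par)

theorem R_le (t : ℕ) (ht : t = P.J * P.m + 1) : P.R ≤ 2 ^ (t + 1) := by
  have hm := P.hm
  have h1 := (P.ab_le (P.J * P.m)).1
  rw [← ht] at h1
  have h2 : 4 * P.N ≤ t := by
    have hJ : P.J = 4 * P.N + 3 := by
      unfold J M
      omega
    have h3 : P.J * 1 ≤ P.J * P.m := Nat.mul_le_mul_left _ (by omega)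
    omega
  have h3 : 4 * P.N ≤ 2 ^ t := h2.trans (Nat.lt_two_pow_self).le
  have h4 : (4 * (P.N : ℤ)) ≤ 2 ^ t := by exact_mod_cast h3
  unfold R
  rw [pow_succ]
  linarith

theorem big_le (t : ℕ) (ht : t = P.J * P.m + 1) :
    4 * Close.D P.low * (P.low.E + 1) + 4 * (P.low.E + 1) ≤ 2 ^ (P.m + 1 + 4 * t + 14) ∧
      P.low.E ≤ 2 ^ (2 * t + 5) := by
  have hR := P.R_le t ht
  have hR0 := P.R_pos
  have e1 : (1 : ℤ) ≤ 2 ^ t := one_le_pow₀ (by norm_num)
  have hE : P.low.E = P.Q * (P.R + 2) := rfl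
  have hQ : P.Q = 2 * P.R + 1 := rfl
  have hD : Close.D P.low = ((P.m + 1 : ℕ) : ℤ) * P.low.E + 2 := rfl
  have t1 : (2 : ℤ) ^ (t + 1) = 2 * 2 ^ t := by rw [pow_succ]; ring
  have hQ' : P.Q ≤ 8 * 2 ^ t := by
    rw [hQ]
    linarith
  have hR' : P.R + 2 ≤ 4 * 2 ^ t := by linarith
  have hEle : P.low.E ≤ 32 * (2 ^ t * 2 ^ t) := by
    rw [hE]
    calc P.Q * (P.R + 2) ≤ (8 * 2 ^ t) * (4 * 2 ^ t) :=
          mul_le_mul hQ' hR' (by linarith) (by positivity)
      _ = 32 * (2 ^ t * 2 ^ t) := by ring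
  have hE1 : 1 ≤ P.low.E := Close.E_pos P.low
  have hX : (2 : ℤ) ^ (2 * t + 5) = 32 * (2 ^ t * 2 ^ t) := by
    rw [pow_add, two_mul, pow_add]
    norm_num
    ring
  have hX1 : (1 : ℤ) ≤ 2 ^ t * 2 ^ t := by nlinarith
  have hg : ((P.m + 1 : ℕ) : ℤ) + 1 ≤ 2 ^ (P.m + 1) := by
    have : P.m + 1 + 1 ≤ 2 ^ (P.m + 1) := Nat.lt_two_pow_self
    exact_mod_cast this
  have hDle : Close.D P.low + 1 ≤ 2 ^ (P.m + 1) * (64 * (2 ^ t * 2 ^ t)) := by
    have h1 : ((P.m + 1 : ℕ) : ℤ) * P.low.E ≤ (2 ^ (P.m + 1) - 1) * (32 * (2 ^ t * 2 ^ t)) :=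
      mul_le_mul (by linarith) hEle (by linarith) (by
        have : (1 : ℤ) ≤ 2 ^ (P.m + 1) := one_le_pow₀ (by norm_num)
        linarith)
    have h2 : (1 : ℤ) ≤ 2 ^ (P.m + 1) := one_le_pow₀ (by norm_num)
    have h3 : 2 ^ t * 2 ^ t ≤ (2 : ℤ) ^ (P.m + 1) * (2 ^ t * 2 ^ t) := le_mul_of_one_le_left (by positivity) h2
    rw [hD]
    nlinarith
  refine ⟨?_, by rw [hX]; exact hEle⟩
  have hE2 : P.low.E + 1 ≤ 64 * (2 ^ t * 2 ^ t) := by linarith
  have hD0 : 0 ≤ Close.D P.low + 1 := by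
    rw [hD]
    positivity
  calc 4 * Close.D P.low * (P.low.E + 1) + 4 * (P.low.E + 1)
      = 4 * ((Close.D P.low + 1) * (P.low.E + 1)) := by ring
    _ ≤ 4 * ((2 ^ (P.m + 1) * (64 * (2 ^ t * 2 ^ t))) * (64 * (2 ^ t * 2 ^ t))) := by
        apply mul_le_mul_of_nonneg_left _ (by norm_num)
        exact mul_le_mul hDle hE2 (by linarith) (by positivity)
    _ = 2 ^ (P.m + 1 + 4 * t + 14) := by
        have e : (2 : ℤ) ^ (P.m + 1 + 4 * t + 14) = 2 ^ (P.m + 1) * (2 ^ t) ^ 4 * 2 ^ 14 := by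
          rw [← pow_mul, ← pow_add, ← pow_add]
          congr 1
          ring
        rw [e]
        ring

theorem exp_le (t : ℕ) (ht : t = P.J * P.m + 1) (hN : P.N ≤ 2 ^ (8 ^ (P.m + 1))) :
    P.m + 1 + 4 * t + 15 ≤ 2 ^ (9 ^ (P.m + 1)) := by
  have hm := P.hm
  obtain ⟨g, hg⟩ : ∃ g, g = P.m + 1 := ⟨_, rfl⟩
  rw [← hg] at hN ⊢
  have hJ : P.J = 4 * P.N + 3 := by
    unfold J M
    omega
  have h1 : P.J ≤ 7 * 2 ^ (8 ^ g) := by
    have : 1 ≤ 2 ^ (8 ^ g) := Nat.one_le_two_pow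
    omega
  have h2 : P.J * P.m ≤ 7 * 2 ^ (8 ^ g) * g := Nat.mul_le_mul h1 (by omega)
  have h3 : 1 ≤ 2 ^ (8 ^ g) := Nat.one_le_two_pow
  have h4 : g ≤ g * 2 ^ (8 ^ g) := Nat.le_mul_of_pos_right _ (by omega)
  have h5 : 2 * g + 4 ≤ 2 ^ g := two_mul_le_pow g (by omega)
  calc g + 4 * t + 15 ≤ (29 * g + 19) * 2 ^ (8 ^ g) := by
        rw [ht]
        nlinarith
    _ ≤ 2 ^ (g + 6) * 2 ^ (8 ^ g) := by
        apply Nat.mul_le_mul_right
        rw [pow_add]
        omega
    _ = 2 ^ (8 ^ g + g + 6) := by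
        rw [← pow_add]
        congr 1
        ring
    _ ≤ 2 ^ (9 ^ g) := Nat.pow_le_pow_right (by norm_num) (eight_nine g (by omega))

end Par

/-- Graphs of girth `g` and size `2 p - 5` exist for every `p ≥ 2 ^ 2 ^ 9 ^ g`. -/
theorem effective (g : ℕ) (hg : 4 ≤ g) (p : ℕ) (hp : 2 ^ (2 ^ (9 ^ g)) ≤ p) :
    ∃ G : SimpleGraph (Fin p), SuperEdgeMagic G ∧ G.girth = g ∧ Nat.card G.edgeSet = 2 * p - 5 := by
  obtain ⟨m, rfl⟩ : ∃ m, g = m + 1 := ⟨g - 1, by omega⟩
  obtain ⟨N, hN, hNle, π, hb, hfree⟩ := magnus_le (m + 1) hg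
  let P : Par :=
    { m := m
      hm := by omega
      N := N
      hN := hN
      π := π
      hb := hb
      hfree := hfree }
  obtain ⟨t, ht⟩ : ∃ t, t = P.J * P.m + 1 := ⟨_, rfl⟩
  obtain ⟨h1, h2⟩ := P.big_le t ht
  have h3 := P.exp_le t ht hNle
  obtain ⟨c1, c2, c3⟩ := P.low_cyc
  have h4 : 2 ^ (m + 1 + 4 * t + 15) ≤ p := (Nat.pow_le_pow_right (by norm_num) h3).trans hp
  have h5 : (2 : ℤ) ^ (m + 1 + 4 * t + 14) * 2 ≤ p := by
    have : (2 : ℤ) ^ (m + 1 + 4 * t + 15) ≤ p := by exact_mod_cast h4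
    rw [pow_succ] at this
    exact this
  have h6 : (2 : ℤ) ^ (m + 1) ≤ 2 ^ (m + 1 + 4 * t + 11) := pow_le_pow_right₀ (by norm_num) (by omega)
  have h7 : (2 : ℤ) ^ (2 * t + 5) ≤ 2 ^ (m + 1 + 4 * t + 11) := pow_le_pow_right₀ (by norm_num) (by omega)
  have h8 : (2 : ℤ) ^ (m + 1 + 4 * t + 14) = 8 * 2 ^ (m + 1 + 4 * t + 11) := by
    rw [show m + 1 + 4 * t + 14 = (m + 1 + 4 * t + 11) + 3 by ring, pow_add]
    ring
  have h9 : (2 : ℤ) ^ 4 ≤ 2 ^ (m + 1 + 4 * t + 11) := pow_le_pow_right₀ (by norm_num) (by omega)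
  refine close_expl (m + 1) hg P.low P.cyd (2 ^ (m + 1)) (fun i hi => P.cyd_le i hi) c1 c2 c3 p ?_ ?_
  · norm_num at h9
    linarith
  · have h10 : 4 * Close.D P.low * (P.low.E + 1) + 4 * (P.low.E + 1) ≤
        (2 : ℤ) ^ (m + 1 + 4 * t + 14) := h1
    norm_num at h9
    linarith

end Pool.Agent.MP_1b49f3_co
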